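import Pool.Agent.X171.Env.Quot

/-!
# The lower estimate for vectors supported in disjoint bands of levels
-/

set_option autoImplicit false

open Set Metric Filter Topology

namespace Pool.Agent.X171.Env

variable {P : Par}

open scoped Classical in
/-- truncation to a set of levels -/
noncomputable def tr (A : Set ℕ) (u : G P) : G P :=
  ⟨fun n => if n ∈ A then u.fn n else 0, by
    refine Summable.of_nonneg_of_le (fun _ => lev_nonneg _) (fun n => ?_) u.summable
    dsimp only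
    split_ifs
    · exact le_rfl
    · rw [lev_zero P.p_pos]
      exact lev_nonneg _⟩

lemma tr_fn_mem {A : Set ℕ} (u : G P) {n : ℕ} (h : n ∈ A) : (tr A u).fn n = u.fn n := if_pos h

lemma tr_fn_notMem {A : Set ℕ} (u : G P) {n : ℕ} (h : n ∉ A) : (tr A u).fn n = 0 := if_neg h

lemma Rfun_congr {d e : W P} {n : ℕ} (h1 : d n = e n) (h2 : d (n + 1) = e (n + 1)) :
    Rfun d (n + 1) = Rfun e (n + 1) := by
  rw [Rfun, Rfun, h1, h2]

lemma Vn_zero (n : ℕ) : Vn n (0 : L P.c n → ℝ) = 0 := by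
  ext t
  simp [Vn]

/-- the norm as a finite sum -/
lemma norm_eq_sum (u : G P) (s : Finset ℕ) (h : ∀ n ∉ s, u.fn n = 0) :
    ‖u‖ = ∑ n ∈ s, lev P.p (u.fn n) := by
  rw [norm_def]
  exact tsum_eq_sum fun n hn => by rw [h n hn, lev_zero P.p_pos]

/-- The estimate on a band. -/
lemma band (w y d : G P) {a c : ℕ} (hac : a < c) (hw : ∀ n, ¬ (a < n ∧ n ≤ c) → w.fn n = 0)
    (hy : ∀ n, a < n → n ≤ c → y.fn n = w.fn n) :
    ‖mk w‖ ≤ ∑ n ∈ Finset.Ioc a c, lev P.p ((y + R P d).fn n) + tau P a * lev P.p (d.fn a) +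
      tau P c * lev P.p (d.fn c) := by
  classical
  set d' : G P := tr (Set.Ico a c) d with hd'
  refine (norm_mk_le' w d').trans ?_
  have hsupp : ∀ n ∉ Finset.Icc a c, (w + R P d').fn n = 0 := by
    intro n hn
    rw [Finset.mem_Icc, not_and_or, not_le, not_le] at hn
    rw [G.fn_add, Pi.add_apply, hw n (by omega), zero_add, R_fn]
    have h1 : d'.fn n = 0 := tr_fn_notMem d (by rw [Set.mem_Ico]; omega)
    cases n with
    | zero => rw [Rfun, h1, smul_zero, neg_zero]
    | succ n =>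
      have h2 : d'.fn n = 0 := tr_fn_notMem d (by rw [Set.mem_Ico]; omega)
      rw [Rfun, h1, h2, Vn_zero, smul_zero, sub_zero]
  rw [norm_eq_sum _ _ hsupp]
  have hsplit : Finset.Icc a c = insert a (Finset.Ioc a c) := by
    ext n
    rw [Finset.mem_Icc, Finset.mem_insert, Finset.mem_Ioc]
    omega
  rw [hsplit, Finset.sum_insert (by rw [Finset.mem_Ioc]; omega)]
  have h0 : lev P.p ((w + R P d').fn a) = tau P a * lev P.p (d.fn a) := by
    rw [G.fn_add, Pi.add_apply, hw a (by omega), zero_add, R_fn]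
    have h1 : d'.fn a = d.fn a := tr_fn_mem d (by rw [Set.mem_Ico]; omega)
    cases a with
    | zero => rw [lev_Rfun_zero, h1]
    | succ a =>
      have h2 : d'.fn a = 0 := tr_fn_notMem d (by rw [Set.mem_Ico]; omega)
      rw [Rfun, h1, h2, Vn_zero, zero_sub, lev_neg, lev_beta]
  have h1 : ∑ n ∈ Finset.Ioc a c, lev P.p ((w + R P d').fn n) ≤
      ∑ n ∈ Finset.Ioc a c, (lev P.p ((y + R P d).fn n) +
        if n = c then tau P c * lev P.p (d.fn c) else 0) := by
    refine Finset.sum_le_sum fun n hn => ?_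
    rw [Finset.mem_Ioc] at hn
    obtain ⟨m, rfl⟩ : ∃ m, n = m + 1 := ⟨n - 1, by omega⟩
    have e1 : d'.fn m = d.fn m := tr_fn_mem d (by rw [Set.mem_Ico]; omega)
    rw [G.fn_add, Pi.add_apply, G.fn_add, Pi.add_apply, hy _ hn.1 hn.2, R_fn, R_fn]
    split_ifs with hc
    · have e2 : d'.fn (m + 1) = 0 := tr_fn_notMem d (by rw [Set.mem_Ico]; omega)
      have e3 : w.fn (m + 1) + Rfun d'.fn (m + 1) =
          (w.fn (m + 1) + Rfun d.fn (m + 1)) + beta P (m + 1) • d.fn (m + 1) := by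
        rw [Rfun, Rfun, e1, e2, smul_zero]
        abel
      rw [e3]
      refine (lev_add_le P.p_pos P.p_lt _ _).trans ?_
      rw [lev_beta]
      subst hc
      exact le_rfl
    · have e2 : d'.fn (m + 1) = d.fn (m + 1) := tr_fn_mem d (by rw [Set.mem_Ico]; omega)
      rw [Rfun_congr e1 e2, add_zero]
  rw [Finset.sum_add_distrib, Finset.sum_ite_eq', if_pos (by rw [Finset.mem_Ioc]; omega)] at h1
  linarith

/-- The main estimate. -/
lemma main_estimate {l : ℕ → ℕ} (hl : StrictMono l) (m : ℕ) (w : ℕ → G P) (y : G P)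
    (hw : ∀ k < m, ∀ n, ¬ (l k < n ∧ n ≤ l (k + 1)) → (w k).fn n = 0)
    (hy : ∀ k < m, ∀ n, l k < n → n ≤ l (k + 1) → y.fn n = (w k).fn n)
    {t : ℝ} (ht : ∀ n, l 0 ≤ n → tau P n ≤ t) :
    ∑ k ∈ Finset.range m, ‖mk (w k)‖ ≤ (1 + 4 * t) * ‖mk y‖ + 4 * t * ‖y‖ := by
  classical
  have ht0 : 0 ≤ t := (tau_pos P _).le.trans (ht _ le_rfl)
  have key : ∀ d : G P, ∑ k ∈ Finset.range m, ‖mk (w k)‖ ≤
      (1 + 4 * t) * ‖y + R P d‖ + 4 * t * ‖y‖ := by
    intro d
    have h1 : ∀ k ∈ Finset.range m, ‖mk (w k)‖ ≤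
        ∑ n ∈ Finset.Ioc (l k) (l (k + 1)), lev P.p ((y + R P d).fn n) +
          t * lev P.p (d.fn (l k)) + t * lev P.p (d.fn (l (k + 1))) := by
      intro k hk
      rw [Finset.mem_range] at hk
      refine (band (w k) y d (hl (Nat.lt_succ_self k)) (hw k hk) (hy k hk)).trans ?_
      gcongr
      · exact lev_nonneg _
      · exact ht _ (hl.monotone (Nat.zero_le _))
      · exact lev_nonneg _
      · exact ht _ (hl.monotone (Nat.zero_le _))
    have h2 := Finset.sum_le_sum h1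
    rw [Finset.sum_add_distrib, Finset.sum_add_distrib, ← Finset.mul_sum, ← Finset.mul_sum] at h2
    have h3 : ∀ j, ∑ k ∈ Finset.range j, ∑ n ∈ Finset.Ioc (l k) (l (k + 1)),
        lev P.p ((y + R P d).fn n) = ∑ n ∈ Finset.Ioc (l 0) (l j), lev P.p ((y + R P d).fn n) := by
      intro j
      induction j with
      | zero => simp
      | succ j ih =>
        rw [Finset.sum_range_succ, ih]
        exact Finset.sum_Ioc_consecutive _ (hl.monotone (Nat.zero_le _))
          (hl (Nat.lt_succ_self j)).le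
    rw [h3] at h2
    have h4 := sum_lev_le_norm (y + R P d) (Finset.Ioc (l 0) (l m))
    have h5 : ∑ k ∈ Finset.range m, lev P.p (d.fn (l k)) ≤ ‖d‖ := by
      have := sum_lev_le_norm d ((Finset.range m).image l)
      rwa [Finset.sum_image (hl.injective.injOn)] at this
    have h6 : ∑ k ∈ Finset.range m, lev P.p (d.fn (l (k + 1))) ≤ ‖d‖ := by
      have := sum_lev_le_norm d ((Finset.range m).image fun k => l (k + 1))
      rwa [Finset.sum_image (fun a _ b _ hab => by
        have := hl.injective hab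
        omega)] at this
    have h7 : ‖d‖ ≤ 2 * (‖y + R P d‖ + ‖y‖) := by
      refine (norm_le_R d).trans ?_
      have : R P d = (y + R P d) - y := by abel
      have h8 : ‖R P d‖ ≤ ‖y + R P d‖ + ‖y‖ := by
        conv_lhs => rw [this]
        exact norm_sub_le _ _
      linarith
    have h9 : t * ∑ k ∈ Finset.range m, lev P.p (d.fn (l k)) ≤ t * ‖d‖ := by gcongr
    have h10 : t * ∑ k ∈ Finset.range m, lev P.p (d.fn (l (k + 1))) ≤ t * ‖d‖ := by gcongr
    have h11 : t * ‖d‖ ≤ t * (2 * (‖y + R P d‖ + ‖y‖)) := by gcongr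
    linarith
  refine le_of_forall_pos_le_add fun ε hε => ?_
  obtain ⟨d, hd⟩ := exists_norm_add_lt y (show 0 < ε / (1 + 4 * t) by positivity)
  refine (key d).trans ?_
  have h1 : (1 + 4 * t) * ‖y + R P d‖ ≤ (1 + 4 * t) * (‖mk y‖ + ε / (1 + 4 * t)) := by gcongr
  have h2 : (1 + 4 * t) * (‖mk y‖ + ε / (1 + 4 * t)) = (1 + 4 * t) * ‖mk y‖ + ε := by
    field_simp
  linarith

end Pool.Agent.X171.Env
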