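import Mathlib

/-!
# The space `ℓ_p` of a tree as a complete normed group

The levels of the tree are `L 0 = Unit`, `L (n + 1) = L n × (Fin (c n) × Bool)`.
-/

set_option autoImplicit false

open Set Metric Filter Topology

namespace Pool.Agent.X171.Env

/-- The levels of the tree: a node of the level `n` has `2 * c n` children. -/
def L (c : ℕ → ℕ) : ℕ → Type
  | 0 => Unit
  | n + 1 => L c n × (Fin (c n) × Bool)

instance instFintypeL (c : ℕ → ℕ) : ∀ n, Fintype (L c n)
  | 0 => inferInstanceAs (Fintype Unit)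
  | n + 1 =>
    letI := instFintypeL c n
    inferInstanceAs (Fintype (L c n × (Fin (c n) × Bool)))

/-- the number of children of a node of the level `n` -/
def bb (c : ℕ → ℕ) (n : ℕ) : ℝ := 2 * c n

/-- The parameters of the construction. -/
structure Par where
  p : ℝ
  p_pos : 0 < p
  p_lt : p < 1
  c : ℕ → ℕ
  c_pos : ∀ n, 1 ≤ c n
  tau_le : ∀ n, (bb c n) ^ (p - 1) ≤ 1 / 2
  tau_lim : Tendsto (fun n => (bb c n) ^ (p - 1)) atTop (𝓝 0)

section Lev

variable {p : ℝ} {ι : Type*} [Fintype ι]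

/-- the `p`-norm of a finite family -/
noncomputable def lev (p : ℝ) {ι : Type*} [Fintype ι] (x : ι → ℝ) : ℝ := ∑ s, |x s| ^ p

lemma lev_nonneg (x : ι → ℝ) : 0 ≤ lev p x :=
  Finset.sum_nonneg fun _ _ => Real.rpow_nonneg (abs_nonneg _) _

lemma lev_zero (hp : 0 < p) : lev p (0 : ι → ℝ) = 0 := by
  simp [lev, Real.zero_rpow hp.ne']

lemma lev_neg (x : ι → ℝ) : lev p (-x) = lev p x := by simp [lev]

lemma lev_smul (a : ℝ) (x : ι → ℝ) : lev p (a • x) = |a| ^ p * lev p x := by
  rw [lev, lev, Finset.mul_sum]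
  refine Finset.sum_congr rfl fun s _ => ?_
  rw [Pi.smul_apply, smul_eq_mul, abs_mul, Real.mul_rpow (abs_nonneg _) (abs_nonneg _)]

lemma lev_add_le (hp : 0 < p) (hp1 : p < 1) (x y : ι → ℝ) : lev p (x + y) ≤ lev p x + lev p y := by
  rw [lev, lev, lev, ← Finset.sum_add_distrib]
  refine Finset.sum_le_sum fun s _ => ?_
  calc |(x + y) s| ^ p ≤ (|x s| + |y s|) ^ p :=
        Real.rpow_le_rpow (abs_nonneg _) (abs_add_le _ _) hp.le
    _ ≤ |x s| ^ p + |y s| ^ p :=
        Real.rpow_add_le_add_rpow (abs_nonneg _) (abs_nonneg _) hp.le hp1.le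

lemma abs_rpow_le_lev (x : ι → ℝ) (s : ι) : |x s| ^ p ≤ lev p x :=
  Finset.single_le_sum (f := fun s => |x s| ^ p)
    (fun _ _ => Real.rpow_nonneg (abs_nonneg _) _) (Finset.mem_univ s)

lemma lev_eq_zero (hp : 0 < p) {x : ι → ℝ} (h : lev p x = 0) : x = 0 := by
  ext s
  have h1 := abs_rpow_le_lev (p := p) x s
  rw [h] at h1
  have h2 := le_antisymm h1 (Real.rpow_nonneg (abs_nonneg _) _)
  rw [Real.rpow_eq_zero (abs_nonneg _) hp.ne'] at h2
  exact abs_eq_zero.1 h2

lemma continuous_lev (hp : 0 < p) : Continuous fun x : ι → ℝ => lev p x := by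
  unfold lev
  refine continuous_finsetSum _ fun s _ => ?_
  exact (Real.continuous_rpow_const hp.le).comp (continuous_apply s).abs

end Lev

variable (P : Par)

/-- the space of all functions on the tree -/
abbrev W : Type := ∀ n, L P.c n → ℝ

/-- `ℓ_p` of the tree as a subspace -/
def Gsub : Submodule ℝ (W P) where
  carrier := {u | Summable fun n => lev P.p (u n)}
  zero_mem' := by
    change Summable fun n => lev P.p ((0 : W P) n)
    simp only [Pi.zero_apply, lev_zero P.p_pos]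
    exact summable_zero
  add_mem' := by
    intro u v hu hv
    exact Summable.of_nonneg_of_le (fun _ => lev_nonneg _)
      (fun n => lev_add_le P.p_pos P.p_lt (u n) (v n)) (hu.add hv)
  smul_mem' := by
    intro a u hu
    change Summable fun n => lev P.p ((a • u) n)
    simp only [Pi.smul_apply, lev_smul]
    exact hu.mul_left _

/-- The space `ℓ_p` of the tree. -/
def G : Type := Gsub P

noncomputable instance : AddCommGroup (G P) := inferInstanceAs (AddCommGroup (Gsub P))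

noncomputable instance : Module ℝ (G P) := inferInstanceAs (Module ℝ (Gsub P))

variable {P}

/-- the underlying function -/
def G.fn (u : G P) : W P := u.1

lemma G.ext {u v : G P} (h : ∀ n, u.fn n = v.fn n) : u = v := Subtype.ext (funext h)

lemma G.summable (u : G P) : Summable fun n => lev P.p (u.fn n) := u.2

@[simp] lemma G.fn_add (u v : G P) : (u + v).fn = u.fn + v.fn := rfl
@[simp] lemma G.fn_sub (u v : G P) : (u - v).fn = u.fn - v.fn := rfl
@[simp] lemma G.fn_neg (u : G P) : (-u).fn = -u.fn := rfl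
@[simp] lemma G.fn_zero : (0 : G P).fn = 0 := rfl
@[simp] lemma G.fn_smul (a : ℝ) (u : G P) : (a • u).fn = a • u.fn := rfl

lemma G.fn_sum {ι : Type*} (s : Finset ι) (f : ι → G P) :
    (∑ i ∈ s, f i).fn = ∑ i ∈ s, (f i).fn := by
  classical
  induction s using Finset.induction_on with
  | empty => simp
  | insert i s hi ih => rw [Finset.sum_insert hi, Finset.sum_insert hi, G.fn_add, ih]

/-- the `p`-norm -/
noncomputable def gn (u : G P) : ℝ := ∑' n, lev P.p (u.fn n)

/-- the `p`-norm as a group norm -/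
noncomputable def gnorm (P : Par) : AddGroupNorm (G P) where
  toFun := gn
  map_zero' := by
    simp only [gn, G.fn_zero, Pi.zero_apply, lev_zero P.p_pos, tsum_zero]
  add_le' u v := by
    have h1 : ∀ n, lev P.p ((u + v).fn n) ≤ lev P.p (u.fn n) + lev P.p (v.fn n) := fun n =>
      lev_add_le P.p_pos P.p_lt (u.fn n) (v.fn n)
    rw [gn, gn, gn, ← u.summable.tsum_add v.summable]
    exact (u + v).summable.tsum_le_tsum h1 (u.summable.add v.summable)
  neg' u := by
    simp only [gn, G.fn_neg, Pi.neg_apply, lev_neg]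
  eq_zero_of_map_eq_zero' u h := by
    change gn u = 0 at h
    rw [gn] at h
    apply G.ext
    intro n
    have h1 := u.summable.le_tsum n (fun _ _ => lev_nonneg _)
    rw [h] at h1
    exact lev_eq_zero P.p_pos (le_antisymm h1 (lev_nonneg _))

noncomputable instance : NormedAddCommGroup (G P) := (gnorm P).toNormedAddCommGroup

lemma norm_def (u : G P) : ‖u‖ = ∑' n, lev P.p (u.fn n) := rfl

lemma norm_smul' (a : ℝ) (u : G P) : ‖a • u‖ = |a| ^ P.p * ‖u‖ := by
  rw [norm_def, norm_def, ← tsum_mul_left]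
  refine tsum_congr fun n => ?_
  rw [G.fn_smul, Pi.smul_apply, lev_smul]

lemma lev_le_norm (u : G P) (n : ℕ) : lev P.p (u.fn n) ≤ ‖u‖ :=
  u.summable.le_tsum n (fun _ _ => lev_nonneg _)

lemma sum_lev_le_norm (u : G P) (s : Finset ℕ) : ∑ n ∈ s, lev P.p (u.fn n) ≤ ‖u‖ :=
  u.summable.sum_le_tsum s (fun _ _ => lev_nonneg _)

lemma abs_rpow_le_norm (u : G P) (n : ℕ) (t : L P.c n) : |u.fn n t| ^ P.p ≤ ‖u‖ :=
  (abs_rpow_le_lev _ t).trans (lev_le_norm u n)

/-- Fatou's lemma -/
lemma fatou {w : ℕ → G P} {u : W P} {C : ℝ} (hC : ∀ᶠ k in atTop, ‖w k‖ ≤ C)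
    (hw : ∀ n, Tendsto (fun k => (w k).fn n) atTop (𝓝 (u n))) :
    ∃ v : G P, v.fn = u ∧ ‖v‖ ≤ C := by
  have h1 : ∀ s : Finset ℕ, ∑ n ∈ s, lev P.p (u n) ≤ C := by
    intro s
    have h2 : Tendsto (fun k => ∑ n ∈ s, lev P.p ((w k).fn n)) atTop
        (𝓝 (∑ n ∈ s, lev P.p (u n))) :=
      tendsto_finsetSum _ fun n _ => ((continuous_lev P.p_pos).tendsto _).comp (hw n)
    exact le_of_tendsto h2 (hC.mono fun k hk => (sum_lev_le_norm _ s).trans hk)
  have h3 : Summable fun n => lev P.p (u n) := summable_of_sum_le (fun _ => lev_nonneg _) h1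
  exact ⟨⟨u, h3⟩, rfl, Real.tsum_le_of_sum_le (fun _ => lev_nonneg _) h1⟩

lemma tendsto_of_norm {w : ℕ → G P} {u : G P} (h : Tendsto w atTop (𝓝 u)) (n : ℕ) :
    Tendsto (fun k => (w k).fn n) atTop (𝓝 (u.fn n)) := by
  rw [tendsto_pi_nhds]
  intro t
  rw [tendsto_iff_norm_sub_tendsto_zero] at h ⊢
  have h1 : Tendsto (fun k => ‖w k - u‖ ^ (P.p)⁻¹) atTop (𝓝 0) := by
    have := h.rpow_const (p := (P.p)⁻¹) (Or.inr (inv_nonneg.2 P.p_pos.le))
    rwa [Real.zero_rpow (inv_ne_zero P.p_pos.ne')] at this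
  refine squeeze_zero (fun _ => norm_nonneg _) (fun k => ?_) h1
  have h2 := abs_rpow_le_norm (w k - u) n t
  have h3 := Real.rpow_le_rpow (Real.rpow_nonneg (abs_nonneg _) _) h2 (inv_nonneg.2 P.p_pos.le)
  rwa [← Real.rpow_mul (abs_nonneg _), mul_inv_cancel₀ P.p_pos.ne', Real.rpow_one] at h3

instance : CompleteSpace (G P) := by
  refine Metric.complete_of_cauchySeq_tendsto fun w hw => ?_
  have h1 : ∀ n (t : L P.c n), CauchySeq fun k => (w k).fn n t := by
    intro n t
    rw [Metric.cauchySeq_iff'] at hw ⊢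
    intro ε hε
    obtain ⟨N, hN⟩ := hw (ε ^ P.p) (Real.rpow_pos_of_pos hε _)
    refine ⟨N, fun k hk => ?_⟩
    have h2 := hN k hk
    rw [dist_eq_norm] at h2
    have h3 := (abs_rpow_le_norm (w k - w N) n t).trans_lt h2
    rw [Real.dist_eq]
    exact (Real.rpow_lt_rpow_iff (abs_nonneg _) hε.le P.p_pos).1 h3
  choose u hu using fun n t => cauchySeq_tendsto_of_complete (h1 n t)
  have h2 : ∀ n, Tendsto (fun k => (w k).fn n) atTop (𝓝 (u n)) := fun n =>
    tendsto_pi_nhds.2 (hu n)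
  -- bound of the differences
  have h3 : ∀ ε : ℝ, 0 < ε → ∃ N, ∀ k ≥ N, ∃ v : G P, v.fn = (w k).fn - u ∧ ‖v‖ ≤ ε := by
    intro ε hε
    obtain ⟨N, hN⟩ := Metric.cauchySeq_iff.1 hw ε hε
    refine ⟨N, fun k hk => ?_⟩
    refine fatou (w := fun m => w k - w m) (eventually_atTop.2 ⟨N, fun m hm => ?_⟩) fun n => ?_
    · rw [← dist_eq_norm]
      exact (hN k hk m hm).le
    · exact tendsto_const_nhds.sub (h2 n)
  obtain ⟨N, hN⟩ := h3 1 one_pos
  obtain ⟨v, hv, _⟩ := hN N le_rfl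
  refine ⟨w N - v, ?_⟩
  rw [tendsto_iff_norm_sub_tendsto_zero, Metric.tendsto_atTop]
  intro ε hε
  obtain ⟨M, hM⟩ := h3 (ε / 2) (half_pos hε)
  refine ⟨M, fun k hk => ?_⟩
  obtain ⟨v', hv', hv'n⟩ := hM k hk
  have e1 : w k - (w N - v) = v' := by
    apply G.ext
    intro n
    rw [G.fn_sub, G.fn_sub, hv, hv']
    simp
  rw [e1, dist_zero_right, norm_norm]
  linarith

end Pool.Agent.X171.Env
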