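import Pool.Agent.X171.Env.Fail

/-!
# Quasi-Banach spaces, the Schur `p`-property, Banach envelopes
-/

set_option autoImplicit false

open Set Metric Filter Topology

namespace Pool.Agent.X171.Env

section Defs

variable {X : Type*} [AddCommGroup X] [Module ℝ X]

/-- `q` is a quasi-norm for which the real vector space `X` is complete. -/
structure IsQuasiBanach (q : X → ℝ) : Prop where
  nonneg : ∀ x, 0 ≤ q x
  eq_zero : ∀ x, q x = 0 → x = 0
  smul : ∀ (a : ℝ) (x : X), q (a • x) = |a| * q x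
  add_le : ∃ κ : ℝ, 1 ≤ κ ∧ ∀ x y, q (x + y) ≤ κ * (q x + q y)
  complete : ∀ u : ℕ → X, (∀ ε : ℝ, 0 < ε → ∃ N, ∀ m ≥ N, ∀ n ≥ N, q (u m - u n) < ε) →
    ∃ x, ∀ ε : ℝ, 0 < ε → ∃ N, ∀ n ≥ N, q (u n - x) < ε

/-- The sequence `x` is equivalent to the canonical basis of `ℓ_p` for the quasi-norm `q`. -/
def EquivLpBasis (p : ℝ) (q : X → ℝ) (x : ℕ → X) : Prop :=
  ∃ c C : ℝ, 0 < c ∧ ∀ a : ℕ →₀ ℝ,
    c * (a.sum fun _ r => |r| ^ p) ^ (1 / p) ≤ q (a.sum fun n r => r • x n) ∧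
    q (a.sum fun n r => r • x n) ≤ C * (a.sum fun _ r => |r| ^ p) ^ (1 / p)

/-- The Schur `p`-property: every infinite, bounded, uniformly separated subset contains a
sequence equivalent to the canonical basis of `ℓ_p`. -/
def SchurP (p : ℝ) (q : X → ℝ) : Prop :=
  ∀ S : Set X, S.Infinite → (∃ C : ℝ, ∀ x ∈ S, q x ≤ C) →
    (∃ δ : ℝ, 0 < δ ∧ ∀ x ∈ S, ∀ y ∈ S, x ≠ y → δ ≤ q (x - y)) →
    ∃ x : ℕ → X, (∀ n, x n ∈ S) ∧ EquivLpBasis p q x

/-- `J : X → Xh` is a Banach envelope of the quasi-Banach space `(X, q)`. -/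
structure IsBanachEnvelope (q : X → ℝ) {Xh : Type*} [NormedAddCommGroup Xh] [NormedSpace ℝ Xh]
    (J : X →ₗ[ℝ] Xh) : Prop where
  complete : CompleteSpace Xh
  contraction : ∀ x, ‖J x‖ ≤ q x
  lift : ∀ (Y : Type) [NormedAddCommGroup Y] [NormedSpace ℝ Y] [CompleteSpace Y]
    (T : X →ₗ[ℝ] Y), (∀ x, ‖T x‖ ≤ q x) →
      ∃ T' : Xh →ₗ[ℝ] Y, (∀ z, ‖T' z‖ ≤ ‖z‖) ∧ ∀ x, T' (J x) = T x

/-- The Schur property: weakly null sequences are norm null. -/
def HasSchur (Y : Type*) [NormedAddCommGroup Y] [NormedSpace ℝ Y] : Prop :=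
  ∀ y : ℕ → Y, (∀ f : Y →L[ℝ] ℝ, Tendsto (fun n => f (y n)) atTop (𝓝 0)) →
    Tendsto y atTop (𝓝 0)

end Defs

/-- Every space with a nonnegative gauge has a Banach envelope. -/
theorem exists_envelope {X : Type} [AddCommGroup X] [Module ℝ X] (q : X → ℝ)
    (hq : ∀ x, 0 ≤ q x) :
    ∃ (Xh : Type) (_ : NormedAddCommGroup Xh) (_ : NormedSpace ℝ Xh) (J : X →ₗ[ℝ] Xh),
      IsBanachEnvelope q J := by
  let F : Type := {f : X →ₗ[ℝ] ℝ // ∀ x, |f x| ≤ q x}
  have hmem : ∀ x : X, Memℓp (fun f : F => f.1 x) ⊤ := by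
    intro x
    refine memℓp_infty ⟨q x, ?_⟩
    rintro _ ⟨f, rfl⟩
    exact f.2 x
  let J0 : X →ₗ[ℝ] lp (fun _ : F => ℝ) ⊤ :=
    { toFun := fun x => ⟨fun f => f.1 x, hmem x⟩
      map_add' := fun x y => by
        ext f
        exact f.1.map_add x y
      map_smul' := fun a x => by
        ext f
        exact f.1.map_smul a x }
  have hJ0 : ∀ (x : X) (f : F), J0 x f = f.1 x := fun _ _ => rfl
  let K : Submodule ℝ (lp (fun _ : F => ℝ) ⊤) := (LinearMap.range J0).topologicalClosure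
  have hK : ∀ x, J0 x ∈ K := fun x => Submodule.le_topologicalClosure _ ⟨x, rfl⟩
  let J : X →ₗ[ℝ] K := J0.codRestrict K hK
  have hcl : IsClosed (K : Set (lp (fun _ : F => ℝ) ⊤)) := Submodule.isClosed_topologicalClosure _
  have hnorm : ∀ x, ‖J x‖ = ‖J0 x‖ := fun _ => rfl
  have hdense : DenseRange J := by
    intro z
    rw [closure_subtype]
    have h1 : ((↑) : K → lp (fun _ : F => ℝ) ⊤) '' range J = range J0 := by
      rw [← range_comp]
      rfl
    rw [h1]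
    exact z.2
  refine ⟨K, inferInstance, inferInstance, J, ?_, ?_, ?_⟩
  · exact hcl.completeSpace_coe
  · intro x
    rw [hnorm]
    refine lp.norm_le_of_forall_le (hq x) fun f => ?_
    exact f.2 x
  · intro Y _ _ _ T hT
    have hTJ : ∀ x, ‖T x‖ ≤ 1 * ‖J x‖ := by
      intro x
      rw [one_mul, hnorm]
      obtain ⟨g, hg1, hg2⟩ := exists_dual_vector'' ℝ (T x)
      have hf : ∀ y, |(g.toLinearMap.comp T) y| ≤ q y := by
        intro y
        refine le_trans ?_ (hT y)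
        have := g.le_opNorm (T y)
        rw [Real.norm_eq_abs] at this
        exact this.trans (mul_le_of_le_one_left (norm_nonneg _) hg1)
      have h1 := lp.norm_apply_le_norm ENNReal.top_ne_zero (J0 x) ⟨g.toLinearMap.comp T, hf⟩
      have h2 : (J0 x) ⟨g.toLinearMap.comp T, hf⟩ = g (T x) := rfl
      rw [h2, hg2] at h1
      simpa using h1
    refine ⟨(T.extendOfNorm J).toLinearMap, fun z => ?_, fun x => ?_⟩
    · have := LinearMap.norm_extendOfNorm_apply_le hdense 1 hTJ z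
      rwa [one_mul] at this
    · exact LinearMap.extendOfNorm_eq hdense ⟨1, hTJ⟩ x

/-- the parameters exist for every `p` in `(0, 1)` -/
theorem exists_par (p : ℝ) (hp : 0 < p) (hp1 : p < 1) : ∃ P : Par, P.p = p := by
  have h1 : Tendsto (fun x : ℝ => x ^ (p - 1)) atTop (𝓝 0) := by
    have := tendsto_rpow_neg_atTop (show 0 < 1 - p by linarith)
    simpa only [neg_sub] using this
  obtain ⟨K, hK⟩ := (h1.eventually (ge_mem_nhds (show (0 : ℝ) < 1 / 2 by norm_num))).exists_forall_of_atTop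
  obtain ⟨k, hk⟩ := exists_nat_gt K
  have h2 : Tendsto (fun n : ℕ => bb (fun n => k + n + 1) n) atTop atTop := by
    unfold bb
    refine Filter.Tendsto.const_mul_atTop two_pos ?_
    refine tendsto_natCast_atTop_atTop.comp ?_
    exact tendsto_atTop_mono (fun n => show n ≤ k + n + 1 by omega) tendsto_id
  refine ⟨⟨p, hp, hp1, fun n => k + n + 1, fun n => by omega, fun n => ?_, h1.comp h2⟩, rfl⟩
  refine hK _ ?_
  rw [bb]
  push_cast
  have : (0 : ℝ) ≤ k := Nat.cast_nonneg k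
  have : (0 : ℝ) ≤ n := Nat.cast_nonneg n
  linarith

variable (P : Par)

theorem isQuasiBanach_q : IsQuasiBanach (q P) where
  nonneg x := Real.rpow_nonneg (norm_nonneg _) _
  eq_zero x hx := by
    rw [q, Real.rpow_eq_zero (norm_nonneg _) (inv_ne_zero P.p_pos.ne')] at hx
    exact norm_eq_zero.1 hx
  smul a x := by
    rw [q, q, norm_smul_mk, Real.mul_rpow (Real.rpow_nonneg (abs_nonneg _) _) (norm_nonneg _),
      ← Real.rpow_mul (abs_nonneg _), mul_inv_cancel₀ P.p_pos.ne', Real.rpow_one]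
  add_le := by
    refine ⟨2 ^ (P.p)⁻¹, Real.one_le_rpow (by norm_num) (inv_nonneg.2 P.p_pos.le),
      fun x y => ?_⟩
    have hpi := inv_nonneg.2 P.p_pos.le
    have h1 : ‖x + y‖ ≤ 2 * max ‖x‖ ‖y‖ := by
      have := norm_add_le x y
      have := le_max_left ‖x‖ ‖y‖
      have := le_max_right ‖x‖ ‖y‖
      linarith
    have h2 : q P (x + y) ≤ 2 ^ (P.p)⁻¹ * (max ‖x‖ ‖y‖) ^ (P.p)⁻¹ := by
      rw [← Real.mul_rpow (by norm_num) (le_max_of_le_left (norm_nonneg _))]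
      exact Real.rpow_le_rpow (norm_nonneg _) h1 hpi
    refine h2.trans (mul_le_mul_of_nonneg_left ?_ (Real.rpow_nonneg (by norm_num) _))
    have hx : 0 ≤ q P x := Real.rpow_nonneg (norm_nonneg _) _
    have hy : 0 ≤ q P y := Real.rpow_nonneg (norm_nonneg _) _
    rcases le_total ‖x‖ ‖y‖ with h | h
    · rw [max_eq_right h]
      change q P y ≤ _
      linarith
    · rw [max_eq_left h]
      change q P x ≤ _
      linarith
  complete u hu := by
    have hpow : ∀ {ε : ℝ} {x : X P}, 0 < ε → (q P x < ε ↔ ‖x‖ < ε ^ P.p) := by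
      intro ε x hε
      rw [q, Real.rpow_inv_lt_iff_of_pos (norm_nonneg _) hε.le P.p_pos]
    have h1 : CauchySeq u := by
      rw [Metric.cauchySeq_iff]
      intro ε hε
      obtain ⟨N, hN⟩ := hu (ε ^ (P.p)⁻¹) (Real.rpow_pos_of_pos hε _)
      refine ⟨N, fun m hm n hn => ?_⟩
      have := (hpow (Real.rpow_pos_of_pos hε _)).1 (hN m hm n hn)
      rwa [← Real.rpow_mul hε.le, inv_mul_cancel₀ P.p_pos.ne', Real.rpow_one,
        ← dist_eq_norm] at this
    obtain ⟨x, hx⟩ := cauchySeq_tendsto_of_complete h1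
    refine ⟨x, fun ε hε => ?_⟩
    obtain ⟨N, hN⟩ := Metric.tendsto_atTop.1 hx (ε ^ P.p) (Real.rpow_pos_of_pos hε _)
    refine ⟨N, fun n hn => (hpow hε).2 ?_⟩
    rw [← dist_eq_norm]
    exact hN n hn

theorem schurP_q : SchurP P.p (q P) := by
  rintro S hS ⟨C, hC⟩ ⟨δ, hδ, hsep⟩
  have hp := P.p_pos
  have hpi : 0 ≤ (P.p)⁻¹ := inv_nonneg.2 hp.le
  set e := hS.natEmbedding with he
  set x : ℕ → X P := fun n => (e n : X P) with hx
  have hxS : ∀ n, x n ∈ S := fun n => (e n).2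
  have hC0 : 0 ≤ C := (Real.rpow_nonneg (norm_nonneg _) _).trans (hC _ (hxS 0))
  have h1 : ∀ n, ‖x n‖ ≤ C ^ P.p := by
    intro n
    have := Real.rpow_le_rpow (Real.rpow_nonneg (norm_nonneg _) _) (hC _ (hxS n)) hp.le
    rwa [← Real.rpow_mul (norm_nonneg _), inv_mul_cancel₀ hp.ne', Real.rpow_one] at this
  have h2 : ∀ m n, m ≠ n → δ ^ P.p ≤ ‖x m - x n‖ := by
    intro m n hmn
    have hne : x m ≠ x n := fun h => hmn (e.injective (Subtype.ext h))
    have := Real.rpow_le_rpow hδ.le (hsep _ (hxS m) _ (hxS n) hne) hp.le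
    rwa [q, ← Real.rpow_mul (norm_nonneg _), inv_mul_cancel₀ hp.ne', Real.rpow_one] at this
  obtain ⟨θ, -, c, hc, hlow⟩ := schur_aux x (Real.rpow_pos_of_pos hδ _) h1 h2
  refine ⟨fun n => x (θ n), fun n => hxS _, c ^ (P.p)⁻¹, (C ^ P.p) ^ (P.p)⁻¹,
    Real.rpow_pos_of_pos hc _, fun a => ?_⟩
  obtain ⟨m, hm⟩ : ∃ m, a.support ⊆ Finset.range m := by
    obtain ⟨m, hm⟩ := a.support.bddAbove
    refine ⟨m + 1, fun i hi => Finset.mem_range.2 ?_⟩
    have := hm hi
    omega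
  have e1 : (a.sum fun _ r => |r| ^ P.p) = ∑ k ∈ Finset.range m, |a k| ^ P.p :=
    Finsupp.sum_of_support_subset a hm _ (fun i _ => by rw [abs_zero, Real.zero_rpow hp.ne'])
  have e2 : (a.sum fun n r => r • x (θ n)) = ∑ k ∈ Finset.range m, a k • x (θ k) :=
    Finsupp.sum_of_support_subset a hm _ (fun i _ => by rw [zero_smul])
  have hS0 : 0 ≤ ∑ k ∈ Finset.range m, |a k| ^ P.p :=
    Finset.sum_nonneg fun _ _ => Real.rpow_nonneg (abs_nonneg _) _
  rw [e1, e2, one_div]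
  constructor
  · rw [← Real.mul_rpow hc.le hS0]
    exact Real.rpow_le_rpow (mul_nonneg hc.le hS0) (hlow m a) hpi
  · rw [← Real.mul_rpow (Real.rpow_nonneg hC0 _) hS0]
    refine Real.rpow_le_rpow (norm_nonneg _) ?_ hpi
    exact norm_sum_smul_le norm_smul_mk m a _ fun k => h1 _

theorem not_hasSchur {Xh : Type} [NormedAddCommGroup Xh] [NormedSpace ℝ Xh] {J : X P →ₗ[ℝ] Xh}
    (hJ : IsBanachEnvelope (q P) J) : ¬ HasSchur Xh := by
  intro h
  have h1 := h (fun n => J (mk (test n))) (fun f => by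
    refine test_null (f.toLinearMap.comp J) (norm_nonneg f) fun x => ?_
    have h2 := f.le_opNorm (J x)
    rw [Real.norm_eq_abs] at h2
    exact h2.trans (mul_le_mul_of_nonneg_left (hJ.contraction x) (norm_nonneg _)))
  obtain ⟨N, hN⟩ := Metric.tendsto_atTop.1 h1 1 one_pos
  have h2 := hN N le_rfl
  rw [dist_zero_right] at h2
  obtain ⟨T', hT'1, hT'2⟩ := hJ.lift ℝ (PhiX N) (fun x => by
    rw [Real.norm_eq_abs]
    exact abs_PhiX_le N x)
  have h3 := hT'1 (J (mk (test N)))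
  rw [hT'2, PhiX_test, norm_one] at h3
  linarith

end Pool.Agent.X171.Env
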