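import Pool.Agent.X171.Env.Schur

/-!
# The Banach envelope fails the Schur property
-/

set_option autoImplicit false

open Set Metric Filter Topology

namespace Pool.Agent.X171.Env

variable {P : Par}

variable (P) in
/-- the quasi-norm of the quotient -/
noncomputable def q (x : X P) : ℝ := ‖x‖ ^ (P.p)⁻¹

open scoped Classical in
/-- the function supported on the level `n` -/
noncomputable def lift (n : ℕ) (x : L P.c n → ℝ) : G P :=
  ⟨Pi.single n x, summable_of_ne_finset_zero (s := {n}) fun m hm => by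
    rw [Finset.mem_singleton] at hm
    rw [Pi.single_eq_of_ne hm, lev_zero P.p_pos]⟩

lemma lift_fn_same (n : ℕ) (x : L P.c n → ℝ) : (lift n x).fn n = x := Pi.single_eq_same _ _

lemma lift_fn_ne {n m : ℕ} (h : m ≠ n) (x : L P.c n → ℝ) : (lift n x).fn m = 0 :=
  Pi.single_eq_of_ne h _

lemma norm_lift (n : ℕ) (x : L P.c n → ℝ) : ‖lift n x‖ = lev P.p x := by
  rw [norm_eq_sum (lift n x) {n} fun m hm => lift_fn_ne (by simpa using hm) x,
    Finset.sum_singleton, lift_fn_same]

lemma lift_add (n : ℕ) (x y : L P.c n → ℝ) : lift n (x + y) = lift n x + lift n y := by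
  apply G.ext
  intro m
  rw [G.fn_add, Pi.add_apply]
  by_cases h : m = n
  · subst h
    rw [lift_fn_same, lift_fn_same, lift_fn_same]
  · rw [lift_fn_ne h, lift_fn_ne h, lift_fn_ne h, add_zero]

lemma lift_smul (n : ℕ) (a : ℝ) (x : L P.c n → ℝ) : lift n (a • x) = a • lift n x := by
  apply G.ext
  intro m
  rw [G.fn_smul, Pi.smul_apply]
  by_cases h : m = n
  · subst h
    rw [lift_fn_same, lift_fn_same]
  · rw [lift_fn_ne h, lift_fn_ne h, smul_zero]

lemma R_lift (n : ℕ) (x : L P.c n → ℝ) :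
    R P (lift n x) = lift (n + 1) (Vn n x) - lift n (beta P n • x) := by
  apply G.ext
  intro m
  rw [R_fn, G.fn_sub, Pi.sub_apply]
  cases m with
  | zero =>
    rw [Rfun, lift_fn_ne (show 0 ≠ n + 1 by omega), zero_sub]
    by_cases h : 0 = n
    · subst h
      rw [lift_fn_same, lift_fn_same]
    · rw [lift_fn_ne h, lift_fn_ne h, smul_zero]
  | succ m =>
    rw [Rfun]
    by_cases h : m = n
    · subst h
      rw [lift_fn_same, lift_fn_ne (show m + 1 ≠ m by omega), lift_fn_same,
        lift_fn_ne (show m + 1 ≠ m by omega), smul_zero]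
    · rw [lift_fn_ne h, Vn_zero, lift_fn_ne (show m + 1 ≠ n + 1 by omega), zero_sub, zero_sub]
      by_cases h' : m + 1 = n
      · subst h'
        rw [lift_fn_same, lift_fn_same]
      · rw [lift_fn_ne h', lift_fn_ne h', smul_zero]

lemma mk_R (d : G P) : mk (R P d) = 0 := by
  rw [mk, Submodule.mkQ_apply, Submodule.Quotient.mk_eq_zero]
  exact ⟨d, rfl⟩

lemma mk_Vn (n : ℕ) (x : L P.c n → ℝ) : mk (lift (n + 1) (Vn n x)) = beta P n • mk (lift n x) := by
  have h1 := mk_R (lift n x)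
  rw [R_lift] at h1
  change (N P).mkQ _ = 0 at h1
  rw [map_sub, sub_eq_zero, lift_smul, map_smul] at h1
  exact h1

/-- the signs -/
def sgn : Bool → ℝ
  | true => 1
  | false => -1

lemma sgn_sq (b : Bool) : sgn b * sgn b = 1 := by cases b <;> simp [sgn]

variable (P) in
/-- the size of a level -/
noncomputable def card (n : ℕ) : ℝ := Fintype.card (L P.c n)

lemma card_succ (n : ℕ) : card P (n + 1) = card P n * bb P.c n := by
  unfold card bb
  have : Fintype.card (L P.c (n + 1)) = Fintype.card (L P.c n × (Fin (P.c n) × Bool)) := rfl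
  rw [this]
  simp only [Fintype.card_prod, Fintype.card_fin, Fintype.card_bool]
  push_cast
  ring

lemma card_pos (n : ℕ) : 0 < card P n := by
  induction n with
  | zero =>
    unfold card
    have : Fintype.card (L P.c 0) = Fintype.card Unit := rfl
    rw [this]
    simp
  | succ n ih =>
    rw [card_succ]
    exact mul_pos ih (bb_pos P n)

lemma sum_succ (n : ℕ) (f : L P.c (n + 1) → ℝ) :
    ∑ t, f t = ∑ s : L P.c n, ∑ r : Fin (P.c n) × Bool, f (s, r) := by
  exact Fintype.sum_prod_type (α₁ := L P.c n) (α₂ := Fin (P.c n) × Bool) f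

lemma card_children (n : ℕ) :
    ((Finset.univ : Finset (Fin (P.c n) × Bool)).card : ℝ) = bb P.c n := by
  rw [Finset.card_univ, Fintype.card_prod, Fintype.card_fin, Fintype.card_bool, bb]
  push_cast
  ring

lemma sum_sgn (n : ℕ) : ∑ r : Fin (P.c n) × Bool, sgn r.2 = 0 := by
  rw [Fintype.sum_prod_type]
  simp [sgn]

/-- the martingale difference estimate -/
lemma martingale (n : ℕ) (f : L P.c n → ℝ) (f' : L P.c (n + 1) → ℝ)
    (h : ∀ s : L P.c n, ∑ r : Fin (P.c n) × Bool, f' (s, r) = bb P.c n * f s) :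
    (∑ t : L P.c (n + 1), sgn t.2.2 / card P (n + 1) * f' t) ^ 2 ≤
      (∑ t, f' t ^ 2) / card P (n + 1) - (∑ s, f s ^ 2) / card P n := by
  have hc := card_pos (P := P) (n + 1)
  have hc0 := card_pos (P := P) n
  have hb := bb_pos P n
  have e1 : ∑ t : L P.c (n + 1), sgn t.2.2 / card P (n + 1) * f' t =
      ∑ t : L P.c (n + 1), sgn t.2.2 / card P (n + 1) * (f' t - f t.1) := by
    have : ∑ t : L P.c (n + 1), sgn t.2.2 / card P (n + 1) * f t.1 = 0 := by
      rw [sum_succ]
      refine Finset.sum_eq_zero fun s _ => ?_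
      have : ∀ r : Fin (P.c n) × Bool, sgn r.2 / card P (n + 1) * f s =
          sgn r.2 * (f s / card P (n + 1)) := fun r => by ring
      simp only [this]
      rw [← Finset.sum_mul, sum_sgn, zero_mul]
    simp only [mul_sub]
    rw [Finset.sum_sub_distrib, this, sub_zero]
  have e2 : ∑ t : L P.c (n + 1), (f' t - f t.1) ^ 2 = ∑ t, f' t ^ 2 - bb P.c n * ∑ s, f s ^ 2 := by
    rw [sum_succ, sum_succ, Finset.mul_sum, ← Finset.sum_sub_distrib]
    refine Finset.sum_congr rfl fun s _ => ?_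
    have : ∀ r : Fin (P.c n) × Bool, (f' (s, r) - f s) ^ 2 =
        f' (s, r) ^ 2 - 2 * f s * f' (s, r) + f s ^ 2 := fun r => by ring
    simp only [this]
    rw [Finset.sum_add_distrib, Finset.sum_sub_distrib, ← Finset.mul_sum, h s, Finset.sum_const,
      nsmul_eq_mul, card_children]
    ring
  have e3 : (∑ t : L P.c (n + 1), sgn t.2.2 / card P (n + 1) * (f' t - f t.1)) ^ 2 ≤
      (∑ t : L P.c (n + 1), (sgn t.2.2 / card P (n + 1)) ^ 2) *
        ∑ t : L P.c (n + 1), (f' t - f t.1) ^ 2 :=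
    Finset.sum_mul_sq_le_sq_mul_sq _ _ _
  have e4 : ∑ t : L P.c (n + 1), (sgn t.2.2 / card P (n + 1)) ^ 2 = (card P (n + 1))⁻¹ := by
    have : ∀ t : L P.c (n + 1), (sgn t.2.2 / card P (n + 1)) ^ 2 = (card P (n + 1))⁻¹ ^ 2 := by
      intro t
      rw [div_pow, pow_two (sgn _), sgn_sq, inv_pow, one_div]
    simp only [this]
    rw [Finset.sum_const, nsmul_eq_mul, Finset.card_univ]
    change card P (n + 1) * _ = _
    field_simp
  rw [e1]
  refine e3.trans (le_of_eq ?_)
  rw [e4, e2, card_succ]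
  field_simp

/-- the test vectors -/
noncomputable def test (n : ℕ) : G P := lift (n + 1) fun t => sgn t.2.2 / card P (n + 1)

open scoped Classical in
lemma level_sum (n : ℕ) (x : L P.c n → ℝ) :
    x = ∑ s, x s • (Pi.single s (1 : ℝ) : L P.c n → ℝ) := by
  ext t
  rw [Finset.sum_apply, Finset.sum_eq_single t]
  · simp
  · intro s _ hs
    rw [Pi.smul_apply, Pi.single_eq_of_ne hs.symm, smul_zero]
  · intro h
    exact absurd (Finset.mem_univ t) h

/-- A linear functional on `X P` dominated by a multiple of the quasi-norm tends to zero on the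
test vectors. -/
theorem test_null (g : X P →ₗ[ℝ] ℝ) {C : ℝ} (hC : 0 ≤ C) (hg : ∀ x, |g x| ≤ C * q P x) :
    Tendsto (fun n => g (mk (test n))) atTop (𝓝 0) := by
  classical
  set ψ : ∀ n, (L P.c n → ℝ) → ℝ := fun n x => g (mk (lift n x)) with hψ
  have hψadd : ∀ n x y, ψ n (x + y) = ψ n x + ψ n y := by
    intro n x y
    change g ((N P).mkQ (lift n (x + y))) = g ((N P).mkQ (lift n x)) + g ((N P).mkQ (lift n y))
    rw [lift_add, map_add, map_add]
  have hψsmul : ∀ n (a : ℝ) x, ψ n (a • x) = a * ψ n x := by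
    intro n a x
    change g ((N P).mkQ (lift n (a • x))) = a * g ((N P).mkQ (lift n x))
    rw [lift_smul, map_smul, map_smul, smul_eq_mul]
  have hψzero : ∀ n, ψ n 0 = 0 := by
    intro n
    have := hψsmul n 0 0
    rwa [zero_smul, zero_mul] at this
  set f : ∀ n, L P.c n → ℝ := fun n s => ψ n (Pi.single s 1) with hf
  have hψf : ∀ n x, ψ n x = ∑ s, x s * f n s := by
    intro n x
    have hsum : ∀ (S : Finset (L P.c n)), ψ n (∑ s ∈ S, x s • (Pi.single s (1 : ℝ))) =
        ∑ s ∈ S, x s * f n s := by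
      intro S
      induction S using Finset.induction_on with
      | empty => rw [Finset.sum_empty, Finset.sum_empty, hψzero]
      | insert s S hs ih => rw [Finset.sum_insert hs, Finset.sum_insert hs, hψadd, hψsmul, ih]
    conv_lhs => rw [level_sum n x]
    exact hsum _
  have hsingle : ∀ n (s : L P.c n), lev P.p (Pi.single s (1 : ℝ) : L P.c n → ℝ) = 1 := by
    intro n s
    rw [lev, Finset.sum_eq_single s]
    · rw [Pi.single_eq_same, abs_one, Real.one_rpow]
    · intro t _ ht
      rw [Pi.single_eq_of_ne ht, abs_zero, Real.zero_rpow P.p_pos.ne']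
    · intro h
      exact absurd (Finset.mem_univ s) h
  have hfC : ∀ n s, |f n s| ≤ C := by
    intro n s
    refine (hg _).trans ?_
    have h1 : ‖mk (lift n (Pi.single s (1 : ℝ)))‖ ≤ 1 := by
      refine (norm_mk_le _).trans ?_
      rw [norm_lift, hsingle]
    have h2 : q P (mk (lift n (Pi.single s (1 : ℝ)))) ≤ 1 :=
      Real.rpow_le_one (norm_nonneg _) h1 (inv_nonneg.2 P.p_pos.le)
    exact mul_le_of_le_one_right hC h2
  have hrel : ∀ n (s : L P.c n), ∑ r : Fin (P.c n) × Bool, f (n + 1) (s, r) =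
      bb P.c n * f n s := by
    intro n s
    have h1 : ψ (n + 1) (Vn n (Pi.single s 1)) = beta P n * f n s := by
      change g (mk (lift (n + 1) (Vn n (Pi.single s 1)))) = _
      rw [mk_Vn, map_smul, smul_eq_mul]
    rw [hψf, sum_succ, Finset.sum_eq_single s] at h1
    · have h2 : ∀ r : Fin (P.c n) × Bool,
          Vn n (Pi.single s (1 : ℝ)) (s, r) * f (n + 1) (s, r) = nu P n * f (n + 1) (s, r) := by
        intro r
        change nu P n * (Pi.single s (1 : ℝ) : L P.c n → ℝ) s * _ = _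
        rw [Pi.single_eq_same, mul_one]
      rw [Finset.sum_congr rfl fun r _ => h2 r, ← Finset.mul_sum, beta] at h1
      have h3 := (nu_pos P n).ne'
      have h4 : nu P n * ∑ r : Fin (P.c n) × Bool, f (n + 1) (s, r) =
          nu P n * (bb P.c n * f n s) := by
        rw [h1]
        ring
      exact mul_left_cancel₀ h3 h4
    · intro s' _ hs'
      refine Finset.sum_eq_zero fun r _ => ?_
      change nu P n * (Pi.single s (1 : ℝ) : L P.c n → ℝ) s' * _ = _
      rw [Pi.single_eq_of_ne hs', mul_zero, zero_mul]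
    · intro h
      exact absurd (Finset.mem_univ s) h
  set M : ℕ → ℝ := fun n => (∑ s, f n s ^ 2) / card P n with hM
  have hkey : ∀ n, (g (mk (test n))) ^ 2 ≤ M (n + 1) - M n := by
    intro n
    have h1 : g (mk (test n)) = ∑ t : L P.c (n + 1), sgn t.2.2 / card P (n + 1) * f (n + 1) t :=
      hψf (n + 1) _
    rw [h1]
    exact martingale n (f n) (f (n + 1)) (hrel n)
  have hmono : Monotone M := monotone_nat_of_le_succ fun n => by
    have := (sq_nonneg _).trans (hkey n)
    linarith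
  have hbdd : BddAbove (range M) := by
    refine ⟨C ^ 2, ?_⟩
    rintro _ ⟨n, rfl⟩
    rw [hM]
    dsimp only
    rw [div_le_iff₀ (card_pos n)]
    calc ∑ s, f n s ^ 2 ≤ ∑ _s : L P.c n, C ^ 2 :=
          Finset.sum_le_sum fun s _ => sq_le_sq' (abs_le.1 (hfC n s)).1 (abs_le.1 (hfC n s)).2
      _ = C ^ 2 * card P n := by
          rw [Finset.sum_const, nsmul_eq_mul, Finset.card_univ, mul_comm]
          rfl
  have hlim := tendsto_atTop_ciSup hmono hbdd
  have h0 : Tendsto (fun n => M (n + 1) - M n) atTop (𝓝 0) := by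
    have := ((tendsto_add_atTop_iff_nat 1).2 hlim).sub hlim
    rwa [sub_self] at this
  have h1 : Tendsto (fun n => (g (mk (test n))) ^ 2) atTop (𝓝 0) :=
    squeeze_zero (fun _ => sq_nonneg _) hkey h0
  have h2 : Tendsto (fun n => |g (mk (test n))|) atTop (𝓝 0) := by
    have h3 := h1.sqrt
    rw [Real.sqrt_zero] at h3
    simpa [Real.sqrt_sq_eq_abs] using h3
  exact (tendsto_zero_iff_abs_tendsto_zero _).2 h2

/-- the norming martingale of the `n`-th test vector -/
def hh (c : ℕ → ℕ) (n : ℕ) : ∀ m, L c m → ℝ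
  | 0 => fun _ => 0
  | m + 1 => fun t => if m = n then sgn t.2.2 else hh c n m t.1

lemma hh_eq {n m : ℕ} (h : m = n) (t : L P.c (m + 1)) : hh P.c n (m + 1) t = sgn t.2.2 :=
  if_pos h

lemma hh_ne {n m : ℕ} (h : m ≠ n) (t : L P.c (m + 1)) : hh P.c n (m + 1) t = hh P.c n m t.1 :=
  if_neg h

lemma abs_sgn (b : Bool) : |sgn b| = 1 := by cases b <;> simp [sgn]

lemma abs_hh_le (n : ℕ) : ∀ m (s : L P.c m), |hh P.c n m s| ≤ 1
  | 0, _ => by simp [hh]
  | m + 1, t => by
    by_cases h : m = n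
    · rw [hh_eq h, abs_sgn]
    · rw [hh_ne h]
      exact abs_hh_le n m t.1

lemma hh_of_le (n : ℕ) : ∀ m, m ≤ n → ∀ s : L P.c m, hh P.c n m s = 0
  | 0, _, _ => rfl
  | m + 1, h, t => by
    rw [hh_ne (by omega)]
    exact hh_of_le n m (by omega) t.1

lemma sum_hh (n m : ℕ) (s : L P.c m) :
    ∑ r : Fin (P.c m) × Bool, hh P.c n (m + 1) (s, r) = bb P.c m * hh P.c n m s := by
  by_cases h : m = n
  · have h1 : ∀ r : Fin (P.c m) × Bool, hh P.c n (m + 1) (s, r) = sgn r.2 := by
      intro r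
      exact hh_eq h _
    rw [Finset.sum_congr rfl fun r _ => h1 r, sum_sgn, hh_of_le n m h.le, mul_zero]
  · have h1 : ∀ r : Fin (P.c m) × Bool, hh P.c n (m + 1) (s, r) = hh P.c n m s := by
      intro r
      exact hh_ne h _
    rw [Finset.sum_congr rfl fun r _ => h1 r, Finset.sum_const, nsmul_eq_mul, card_children]

/-- the values on the levels -/
noncomputable def lv (n : ℕ) (u : W P) (m : ℕ) : ℝ := ∑ s, hh P.c n m s * u m s

lemma abs_lv_le (n : ℕ) (u : G P) (m : ℕ) :
    |lv n u.fn m| ≤ lev P.p (u.fn m) * (‖u‖ ^ (P.p)⁻¹) ^ (1 - P.p) := by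
  have hK : 0 ≤ ‖u‖ ^ (P.p)⁻¹ := Real.rpow_nonneg (norm_nonneg _) _
  rw [lv, lev, Finset.sum_mul]
  refine (Finset.abs_sum_le_sum_abs _ _).trans (Finset.sum_le_sum fun s _ => ?_)
  rw [abs_mul]
  have h1 : |u.fn m s| ≤ ‖u‖ ^ (P.p)⁻¹ := by
    have h2 := abs_rpow_le_norm u m s
    have h3 := Real.rpow_le_rpow (Real.rpow_nonneg (abs_nonneg _) _) h2 (inv_nonneg.2 P.p_pos.le)
    rwa [← Real.rpow_mul (abs_nonneg _), mul_inv_cancel₀ P.p_pos.ne', Real.rpow_one] at h3
  calc |hh P.c n m s| * |u.fn m s| ≤ 1 * |u.fn m s| :=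
        mul_le_mul_of_nonneg_right (abs_hh_le n m s) (abs_nonneg _)
    _ = |u.fn m s| ^ P.p * |u.fn m s| ^ (1 - P.p) := by
        rw [one_mul]
        by_cases h0 : |u.fn m s| = 0
        · rw [h0, Real.zero_rpow P.p_pos.ne', zero_mul]
        · rw [← Real.rpow_add (lt_of_le_of_ne (abs_nonneg _) (Ne.symm h0))]
          rw [add_sub_cancel, Real.rpow_one]
    _ ≤ |u.fn m s| ^ P.p * (‖u‖ ^ (P.p)⁻¹) ^ (1 - P.p) := by
        refine mul_le_mul_of_nonneg_left ?_ (Real.rpow_nonneg (abs_nonneg _) _)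
        exact Real.rpow_le_rpow (abs_nonneg _) h1 (by linarith [P.p_lt])

lemma summable_lv (n : ℕ) (u : G P) : Summable (lv n u.fn) := by
  refine Summable.of_norm_bounded
    (g := fun m => lev P.p (u.fn m) * (‖u‖ ^ (P.p)⁻¹) ^ (1 - P.p)) (u.summable.mul_right _)
    fun m => ?_
  rw [Real.norm_eq_abs]
  exact abs_lv_le n u m

/-- the functional on `G` -/
noncomputable def Phi (n : ℕ) : G P →ₗ[ℝ] ℝ where
  toFun u := ∑' m, lv n u.fn m
  map_add' u v := by
    rw [← (summable_lv n u).tsum_add (summable_lv n v)]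
    refine tsum_congr fun m => ?_
    rw [lv, lv, lv, ← Finset.sum_add_distrib]
    refine Finset.sum_congr rfl fun s _ => ?_
    rw [G.fn_add, Pi.add_apply, Pi.add_apply, mul_add]
  map_smul' a u := by
    rw [RingHom.id_apply, smul_eq_mul, ← tsum_mul_left]
    refine tsum_congr fun m => ?_
    rw [lv, lv, Finset.mul_sum]
    refine Finset.sum_congr rfl fun s _ => ?_
    rw [G.fn_smul, Pi.smul_apply, Pi.smul_apply, smul_eq_mul]
    ring

lemma Phi_apply (n : ℕ) (u : G P) : Phi n u = ∑' m, lv n u.fn m := rfl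

lemma abs_Phi_le (n : ℕ) (u : G P) : |Phi n u| ≤ ‖u‖ ^ (P.p)⁻¹ := by
  rw [Phi_apply]
  have h1 : |∑' m, lv n u.fn m| ≤ ∑' m, lev P.p (u.fn m) * (‖u‖ ^ (P.p)⁻¹) ^ (1 - P.p) := by
    rw [← Real.norm_eq_abs]
    refine tsum_of_norm_bounded (u.summable.mul_right _).hasSum fun m => ?_
    rw [Real.norm_eq_abs]
    exact abs_lv_le n u m
  rw [tsum_mul_right, ← norm_def] at h1
  refine h1.trans (le_of_eq ?_)
  rcases eq_or_lt_of_le (norm_nonneg u) with h0 | h0
  · rw [← h0, Real.zero_rpow (inv_ne_zero P.p_pos.ne'), zero_mul]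
  · rw [← Real.rpow_mul h0.le]
    conv_lhs =>
      rw [← Real.rpow_one ‖u‖]
    rw [Real.rpow_one, ← Real.rpow_one_add' h0.le]
    · congr 1
      have := P.p_pos.ne'
      field_simp
      ring
    · have := P.p_pos
      have h2 : 0 ≤ (P.p)⁻¹ * (1 - P.p) := mul_nonneg (inv_nonneg.2 this.le) (by linarith [P.p_lt])
      linarith

/-- the functional vanishes on the relations -/
lemma Phi_R (n : ℕ) (d : G P) : Phi n (R P d) = 0 := by
  set t : ℕ → ℝ := fun m => beta P m * lv n d.fn m with ht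
  have h0 : lv n (R P d).fn 0 = -t 0 := by
    rw [R_fn, lv, ht]
    dsimp only
    rw [lv, Finset.mul_sum, ← Finset.sum_neg_distrib]
    refine Finset.sum_congr rfl fun s _ => ?_
    rw [Rfun, Pi.neg_apply, Pi.smul_apply, smul_eq_mul]
    ring
  have h1 : ∀ m, lv n (R P d).fn (m + 1) = t m - t (m + 1) := by
    intro m
    rw [R_fn, lv, ht]
    dsimp only
    have e1 : ∑ s : L P.c (m + 1), hh P.c n (m + 1) s * Rfun d.fn (m + 1) s =
        ∑ s : L P.c (m + 1), hh P.c n (m + 1) s * Vn m (d.fn m) s -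
          ∑ s : L P.c (m + 1), hh P.c n (m + 1) s * (beta P (m + 1) * d.fn (m + 1) s) := by
      rw [← Finset.sum_sub_distrib]
      refine Finset.sum_congr rfl fun s _ => ?_
      rw [Rfun, Pi.sub_apply, Pi.smul_apply, smul_eq_mul, mul_sub]
    rw [e1]
    congr 1
    · rw [sum_succ, lv, Finset.mul_sum]
      refine Finset.sum_congr rfl fun s _ => ?_
      have e2 : ∀ r : Fin (P.c m) × Bool, hh P.c n (m + 1) (s, r) * Vn m (d.fn m) (s, r) =
          hh P.c n (m + 1) (s, r) * (nu P m * d.fn m s) := fun r => rfl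
      rw [Finset.sum_congr rfl fun r _ => e2 r, ← Finset.sum_mul, sum_hh, beta]
      ring
    · rw [lv, Finset.mul_sum]
      refine Finset.sum_congr rfl fun s _ => ?_
      ring
  have hs : Summable (lv n (R P d).fn) := summable_lv n _
  have hbound : ∀ m, beta P m ≤ 1 := by
    intro m
    have h2 := beta_rpow P m
    have h3 := tau_le P m
    rw [← h2, abs_of_pos (beta_pos P m)] at h3
    by_contra hcon
    push Not at hcon
    have := Real.one_le_rpow hcon.le P.p_pos.le
    linarith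
  have hts : Summable t := by
    refine Summable.of_norm_bounded (summable_lv n d).norm fun m => ?_
    rw [ht, norm_mul, Real.norm_of_nonneg (beta_pos P m).le]
    exact mul_le_of_le_one_left (norm_nonneg _) (hbound m)
  rw [Phi_apply, hs.tsum_eq_zero_add, h0]
  have h2 : ∑' m, lv n (R P d).fn (m + 1) = ∑' m, (t m - t (m + 1)) := tsum_congr h1
  have hts1 : Summable fun m => t (m + 1) := (summable_nat_add_iff (f := t) 1).2 hts
  rw [h2, hts.tsum_sub hts1, hts.tsum_eq_zero_add]
  ring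

/-- the functional on the quotient -/
noncomputable def PhiX (n : ℕ) : X P →ₗ[ℝ] ℝ := (N P).liftQ (Phi n) (by
  rintro _ ⟨d, rfl⟩
  exact Phi_R n d)

lemma PhiX_mk (n : ℕ) (u : G P) : PhiX n (mk u) = Phi n u := rfl

lemma abs_PhiX_le (n : ℕ) (x : X P) : |PhiX n x| ≤ q P x := by
  have h1 : |PhiX n x| ^ P.p ≤ ‖x‖ := by
    refine le_of_forall_pos_le_add fun ε hε => ?_
    obtain ⟨u, rfl, hu⟩ := exists_lift x hε
    rw [PhiX_mk]
    have h2 := Real.rpow_le_rpow (abs_nonneg _) (abs_Phi_le n u) P.p_pos.le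
    rw [← Real.rpow_mul (norm_nonneg _), inv_mul_cancel₀ P.p_pos.ne', Real.rpow_one] at h2
    exact h2.trans hu.le
  have h3 := Real.rpow_le_rpow (Real.rpow_nonneg (abs_nonneg _) _) h1 (inv_nonneg.2 P.p_pos.le)
  rwa [← Real.rpow_mul (abs_nonneg _), mul_inv_cancel₀ P.p_pos.ne', Real.rpow_one] at h3

lemma PhiX_test (n : ℕ) : PhiX (P := P) n (mk (test n)) = 1 := by
  rw [PhiX_mk, Phi_apply, tsum_eq_single (n + 1)]
  · rw [lv, test, lift_fn_same]
    have h1 : ∀ t : L P.c (n + 1), hh P.c n (n + 1) t * (sgn t.2.2 / card P (n + 1)) =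
        (card P (n + 1))⁻¹ := by
      intro t
      rw [hh_eq rfl, ← mul_div_assoc, sgn_sq, one_div]
    rw [Finset.sum_congr rfl fun t _ => h1 t, Finset.sum_const, nsmul_eq_mul, Finset.card_univ]
    exact mul_inv_cancel₀ (card_pos (P := P) (n + 1)).ne'
  · intro m hm
    rw [lv, test, lift_fn_ne hm]
    simp

end Pool.Agent.X171.Env
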