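import Pool.Agent.X171.Env.Base

/-!
# The quotient of `ℓ_p(tree)` by the averaging relations
-/

set_option autoImplicit false

open Set Metric Filter Topology

namespace Pool.Agent.X171.Env

variable (P : Par)

/-- the coefficients of the children -/
noncomputable def nu (n : ℕ) : ℝ := (bb P.c n) ^ (-P.p⁻¹)

/-- the coefficient of the node -/
noncomputable def beta (n : ℕ) : ℝ := bb P.c n * nu P n

/-- its `p`-norm -/
noncomputable def tau (n : ℕ) : ℝ := (bb P.c n) ^ (P.p - 1)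

lemma bb_pos (n : ℕ) : 0 < bb P.c n := by
  have : (1 : ℝ) ≤ P.c n := by exact_mod_cast P.c_pos n
  rw [bb]
  positivity

lemma nu_pos (n : ℕ) : 0 < nu P n := Real.rpow_pos_of_pos (bb_pos P n) _

lemma nu_rpow (n : ℕ) : bb P.c n * |nu P n| ^ P.p = 1 := by
  rw [abs_of_pos (nu_pos P n), nu, ← Real.rpow_mul (bb_pos P n).le, neg_mul,
    inv_mul_cancel₀ P.p_pos.ne', Real.rpow_neg_one, mul_inv_cancel₀ (bb_pos P n).ne']

lemma beta_pos (n : ℕ) : 0 < beta P n := mul_pos (bb_pos P n) (nu_pos P n)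

lemma beta_rpow (n : ℕ) : |beta P n| ^ P.p = tau P n := by
  have h1 := nu_rpow P n
  rw [abs_of_pos (nu_pos P n)] at h1
  rw [abs_of_pos (beta_pos P n), beta, Real.mul_rpow (bb_pos P n).le (nu_pos P n).le, tau,
    Real.rpow_sub (bb_pos P n), Real.rpow_one]
  have h2 : nu P n ^ P.p = (bb P.c n)⁻¹ := by
    field_simp [(bb_pos P n).ne']
    linarith
  rw [h2, div_eq_mul_inv]

lemma tau_pos (n : ℕ) : 0 < tau P n := Real.rpow_pos_of_pos (bb_pos P n) _

lemma tau_le (n : ℕ) : tau P n ≤ 1 / 2 := P.tau_le n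

variable {P}

/-- the inclusion of the level `n` in the level `n + 1` -/
noncomputable def Vn (n : ℕ) (x : L P.c n → ℝ) : L P.c (n + 1) → ℝ := fun t => nu P n * x t.1

lemma lev_Vn (n : ℕ) (x : L P.c n → ℝ) : lev P.p (Vn n x) = lev P.p x := by
  unfold lev Vn
  change (∑ t : L P.c n × (Fin (P.c n) × Bool), |nu P n * x t.1| ^ P.p) = _
  rw [Fintype.sum_prod_type]
  refine Finset.sum_congr rfl fun s _ => ?_
  simp only [Finset.sum_const, Finset.card_univ, Fintype.card_prod, Fintype.card_fin,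
    Fintype.card_bool, nsmul_eq_mul]
  rw [abs_mul, Real.mul_rpow (abs_nonneg _) (abs_nonneg _), ← mul_assoc]
  have h := nu_rpow P n
  rw [bb] at h
  push_cast
  rw [mul_comm (P.c n : ℝ) 2, h, one_mul]

lemma lev_beta (n : ℕ) (x : L P.c n → ℝ) : lev P.p (beta P n • x) = tau P n * lev P.p x := by
  rw [lev_smul, beta_rpow]

/-- the operator on functions -/
noncomputable def Rfun (d : W P) : W P
  | 0 => -(beta P 0 • d 0)
  | n + 1 => Vn n (d n) - beta P (n + 1) • d (n + 1)

lemma lev_Rfun_zero (d : W P) : lev P.p (Rfun d 0) = tau P 0 * lev P.p (d 0) := by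
  rw [Rfun, lev_neg, lev_beta]

lemma lev_sub_le' {ι : Type*} [Fintype ι] (x y : ι → ℝ) :
    lev P.p (x - y) ≤ lev P.p x + lev P.p y := by
  rw [sub_eq_add_neg]
  refine (lev_add_le P.p_pos P.p_lt _ _).trans ?_
  rw [lev_neg]

lemma lev_Rfun_succ_le (d : W P) (n : ℕ) :
    lev P.p (Rfun d (n + 1)) ≤ lev P.p (d n) + tau P (n + 1) * lev P.p (d (n + 1)) := by
  rw [Rfun]
  refine (lev_sub_le' _ _).trans ?_
  rw [lev_Vn, lev_beta]

lemma le_lev_Rfun_succ (d : W P) (n : ℕ) :
    lev P.p (d n) ≤ lev P.p (Rfun d (n + 1)) + tau P (n + 1) * lev P.p (d (n + 1)) := by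
  have h1 : Vn n (d n) = Rfun d (n + 1) + beta P (n + 1) • d (n + 1) := by
    rw [Rfun, sub_add_cancel]
  rw [← lev_Vn, h1]
  refine (lev_add_le P.p_pos P.p_lt _ _).trans ?_
  rw [lev_beta]

lemma summable_Rfun (d : G P) : Summable fun n => lev P.p (Rfun d.fn n) := by
  rw [← summable_nat_add_iff (f := fun n => lev P.p (Rfun d.fn n)) 1]
  have h1 : Summable fun n => lev P.p (d.fn (n + 1)) := (summable_nat_add_iff (f := fun n => lev P.p (d.fn n)) 1).2 d.summable
  refine Summable.of_nonneg_of_le (fun _ => lev_nonneg _) (fun n => ?_)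
    (d.summable.add h1)
  refine (lev_Rfun_succ_le d.fn n).trans (add_le_add le_rfl ?_)
  exact mul_le_of_le_one_left (lev_nonneg _) ((tau_le P _).trans (by norm_num))

variable (P) in
/-- the operator `R` whose range is spanned by the averaging relations -/
noncomputable def R : G P →ₗ[ℝ] G P where
  toFun d := ⟨Rfun d.fn, summable_Rfun d⟩
  map_add' d e := by
    apply G.ext
    intro n
    change Rfun (d + e).fn n = Rfun d.fn n + Rfun e.fn n
    cases n with
    | zero =>
      simp only [Rfun, G.fn_add, Pi.add_apply, smul_add, neg_add]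
    | succ n =>
      ext t
      simp only [Rfun, Vn, G.fn_add, Pi.add_apply, Pi.sub_apply, Pi.smul_apply, smul_eq_mul]
      ring
  map_smul' a d := by
    apply G.ext
    intro n
    change Rfun (a • d).fn n = a • Rfun d.fn n
    cases n with
    | zero =>
      ext t
      simp only [Rfun, G.fn_smul, Pi.smul_apply, Pi.neg_apply, smul_eq_mul]
      ring
    | succ n =>
      ext t
      simp only [Rfun, Vn, G.fn_smul, Pi.sub_apply, Pi.smul_apply, smul_eq_mul]
      ring

lemma R_fn (d : G P) : (R P d).fn = Rfun d.fn := rfl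

lemma norm_R_le (d : G P) : ‖R P d‖ ≤ 2 * ‖d‖ := by
  have hs := summable_Rfun d
  have h1 : Summable fun n => lev P.p (d.fn (n + 1)) := (summable_nat_add_iff (f := fun n => lev P.p (d.fn n)) 1).2 d.summable
  rw [norm_def, R_fn, hs.tsum_eq_zero_add]
  have h2 : ∑' n, lev P.p (Rfun d.fn (n + 1)) ≤ ∑' n, (lev P.p (d.fn n) +
      1 / 2 * lev P.p (d.fn (n + 1))) := by
    have hs1 : Summable fun n => lev P.p (Rfun d.fn (n + 1)) := (summable_nat_add_iff (f := fun n => lev P.p (Rfun d.fn n)) 1).2 hs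
    refine Summable.tsum_le_tsum (fun n => ?_) hs1 (d.summable.add (h1.mul_left _))
    exact (lev_Rfun_succ_le d.fn n).trans
      (add_le_add le_rfl (mul_le_mul_of_nonneg_right (tau_le P _) (lev_nonneg _)))
  rw [Summable.tsum_add d.summable (h1.mul_left _), tsum_mul_left] at h2
  have h3 : ‖d‖ = lev P.p (d.fn 0) + ∑' n, lev P.p (d.fn (n + 1)) := d.summable.tsum_eq_zero_add
  have h4 : lev P.p (Rfun d.fn 0) ≤ 1 / 2 * lev P.p (d.fn 0) := by
    rw [lev_Rfun_zero]
    exact mul_le_mul_of_nonneg_right (tau_le P _) (lev_nonneg _)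
  rw [← norm_def] at h2
  have h5 := lev_nonneg (p := P.p) (d.fn 0)
  have h6 : 0 ≤ ∑' n, lev P.p (d.fn (n + 1)) := tsum_nonneg fun _ => lev_nonneg _
  linarith

lemma norm_le_R (d : G P) : ‖d‖ ≤ 2 * ‖R P d‖ := by
  have hs := summable_Rfun d
  have h1 : Summable fun n => lev P.p (d.fn (n + 1)) := (summable_nat_add_iff (f := fun n => lev P.p (d.fn n)) 1).2 d.summable
  have hs1 : Summable fun n => lev P.p (Rfun d.fn (n + 1)) := (summable_nat_add_iff (f := fun n => lev P.p (Rfun d.fn n)) 1).2 hs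
  have h0 : ‖R P d‖ = lev P.p (Rfun d.fn 0) + ∑' n, lev P.p (Rfun d.fn (n + 1)) := by
    rw [norm_def, R_fn, hs.tsum_eq_zero_add]
  have h2 : ∑' n, lev P.p (d.fn n) ≤ ∑' n, (lev P.p (Rfun d.fn (n + 1)) +
      1 / 2 * lev P.p (d.fn (n + 1))) := by
    refine Summable.tsum_le_tsum (fun n => ?_) d.summable (hs1.add (h1.mul_left _))
    exact (le_lev_Rfun_succ d.fn n).trans
      (add_le_add le_rfl (mul_le_mul_of_nonneg_right (tau_le P _) (lev_nonneg _)))
  rw [Summable.tsum_add hs1 (h1.mul_left _), tsum_mul_left, ← norm_def] at h2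
  have h3 : ‖d‖ = lev P.p (d.fn 0) + ∑' n, lev P.p (d.fn (n + 1)) := d.summable.tsum_eq_zero_add
  have h5 := lev_nonneg (p := P.p) (d.fn 0)
  have h6 := lev_nonneg (p := P.p) (Rfun d.fn 0)
  linarith

variable (P) in
/-- the closed subspace of the relations -/
noncomputable def N : Submodule ℝ (G P) := LinearMap.range (R P)

instance isClosed_N : IsClosed (N P : Set (G P)) := by
  have h1 : AntilipschitzWith 2 (R P) :=
    AddMonoidHomClass.antilipschitz_of_bound (R P) (K := 2) (fun x => by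
      exact_mod_cast norm_le_R x)
  have h2 : UniformContinuous (R P) :=
    AddMonoidHomClass.uniformContinuous_of_bound (R P) 2 norm_R_le
  have := h1.isClosed_range h2
  rwa [← LinearMap.coe_range] at this

variable (P) in
/-- The quotient space. -/
abbrev X : Type := G P ⧸ N P

/-- the quotient map -/
noncomputable abbrev mk (u : G P) : X P := (N P).mkQ u

lemma norm_mk_le (u : G P) : ‖mk u‖ ≤ ‖u‖ := Submodule.Quotient.norm_mk_le _ u

lemma norm_mk_le' (u d : G P) : ‖mk u‖ ≤ ‖u + R P d‖ := by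
  have h1 : mk u = mk (u + R P d) := by
    have h2 : mk (R P d) = 0 := by
      rw [mk, Submodule.mkQ_apply, Submodule.Quotient.mk_eq_zero]
      exact ⟨d, rfl⟩
    change (N P).mkQ u = (N P).mkQ (u + R P d)
    rw [map_add]
    change mk u = mk u + mk (R P d)
    rw [h2, add_zero]
  rw [h1]
  exact norm_mk_le _

lemma exists_lift (x : X P) {ε : ℝ} (hε : 0 < ε) : ∃ u : G P, mk u = x ∧ ‖u‖ < ‖x‖ + ε :=
  Submodule.Quotient.norm_mk_lt x hε

lemma exists_norm_add_lt (u : G P) {ε : ℝ} (hε : 0 < ε) :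
    ∃ d : G P, ‖u + R P d‖ < ‖mk u‖ + ε := by
  obtain ⟨v, hv, hvn⟩ := exists_lift (mk u) hε
  have h1 : v - u ∈ N P := by
    rw [← Submodule.Quotient.mk_eq_zero, ← Submodule.mkQ_apply, map_sub]
    exact sub_eq_zero.2 hv
  obtain ⟨d, hd⟩ := h1
  refine ⟨d, ?_⟩
  rw [hd, add_sub_cancel]
  exact hvn

lemma norm_smul_mk (a : ℝ) (x : X P) : ‖a • x‖ = |a| ^ P.p * ‖x‖ := by
  have h1 : ∀ (a : ℝ) (x : X P), ‖a • x‖ ≤ |a| ^ P.p * ‖x‖ := by
    intro a x
    have h0 : 0 ≤ |a| ^ P.p := Real.rpow_nonneg (abs_nonneg _) _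
    refine le_of_forall_pos_le_add fun ε hε => ?_
    obtain ⟨u, rfl, hu⟩ := exists_lift x (show 0 < ε / (|a| ^ P.p + 1) by positivity)
    have h2 : a • mk u = mk (a • u) := ((N P).mkQ.map_smul a u).symm
    rw [h2]
    refine (norm_mk_le _).trans ?_
    rw [norm_smul']
    calc |a| ^ P.p * ‖u‖ ≤ |a| ^ P.p * (‖mk u‖ + ε / (|a| ^ P.p + 1)) :=
          mul_le_mul_of_nonneg_left hu.le h0
      _ = |a| ^ P.p * ‖mk u‖ + ε * (|a| ^ P.p / (|a| ^ P.p + 1)) := by ring
      _ ≤ |a| ^ P.p * ‖mk u‖ + ε * 1 := by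
          gcongr
          rw [div_le_one (by positivity)]
          linarith
      _ = |a| ^ P.p * ‖mk u‖ + ε := by rw [mul_one]
  apply le_antisymm (h1 a x)
  by_cases ha : a = 0
  · rw [ha, abs_zero, Real.zero_rpow P.p_pos.ne', zero_mul]
    exact norm_nonneg _
  have h2 := h1 a⁻¹ (a • x)
  rw [inv_smul_smul₀ ha, abs_inv, Real.inv_rpow (abs_nonneg _)] at h2
  have h3 : 0 < |a| ^ P.p := Real.rpow_pos_of_pos (abs_pos.2 ha) _
  rwa [← div_eq_inv_mul, le_div_iff₀' h3] at h2

end Pool.Agent.X171.Env
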