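import Pool.Agent.X171.Env.Band

/-!
# The Schur `p`-property of the quotient
-/

set_option autoImplicit false

open Set Metric Filter Topology

namespace Pool.Agent.X171.Env

variable {P : Par}

lemma norm_split (A : Set ℕ) (u : G P) : ‖u‖ = ‖tr A u‖ + ‖u - tr A u‖ := by
  classical
  rw [norm_def, norm_def, norm_def, ← (tr A u).summable.tsum_add (u - tr A u).summable]
  refine tsum_congr fun n => ?_
  rw [G.fn_sub, Pi.sub_apply]
  by_cases h : n ∈ A
  · rw [tr_fn_mem u h, sub_self, lev_zero P.p_pos, add_zero]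
  · rw [tr_fn_notMem u h, sub_zero, lev_zero P.p_pos, zero_add]

lemma norm_tr_le (A : Set ℕ) (u : G P) : ‖tr A u‖ ≤ ‖u‖ := by
  have h1 := norm_split A u
  have h2 := norm_nonneg (u - tr A u)
  linarith

lemma norm_tr_Iic (l : ℕ) (u : G P) :
    ‖tr (Iic l) u‖ = ∑ n ∈ Finset.range (l + 1), lev P.p (u.fn n) := by
  rw [norm_eq_sum (tr (Iic l) u) (Finset.range (l + 1)) fun n hn => tr_fn_notMem u (by
    rw [Finset.mem_range] at hn
    rw [mem_Iic]
    omega)]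
  refine Finset.sum_congr rfl fun n hn => ?_
  rw [Finset.mem_range] at hn
  rw [tr_fn_mem u (by rw [mem_Iic]; omega)]

lemma exists_tail (u : G P) {ε : ℝ} (hε : 0 < ε) :
    ∃ l₀, ∀ l, l₀ ≤ l → ‖u - tr (Iic l) u‖ ≤ ε := by
  have h1 := u.summable.hasSum.tendsto_sum_nat
  rw [← norm_def, Metric.tendsto_atTop] at h1
  obtain ⟨l₀, h2⟩ := h1 ε hε
  refine ⟨l₀, fun l hl => ?_⟩
  have h3 := h2 (l + 1) (by omega)
  rw [← norm_tr_Iic, Real.dist_eq, abs_lt] at h3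
  have h4 := norm_split (Iic l) u
  linarith [h3.1]

lemma exists_low {w : ℕ → G P} (hw : ∀ n, Tendsto (fun k => (w k).fn n) atTop (𝓝 0)) (l : ℕ)
    {ε : ℝ} (hε : 0 < ε) : ∃ k₀, ∀ k, k₀ ≤ k → ‖tr (Iic l) (w k)‖ ≤ ε := by
  have h1 : Tendsto (fun k => ∑ n ∈ Finset.range (l + 1), lev P.p ((w k).fn n)) atTop
      (𝓝 (∑ n ∈ Finset.range (l + 1), lev P.p (0 : L P.c n → ℝ))) :=
    tendsto_finsetSum _ fun n _ => ((continuous_lev P.p_pos).tendsto _).comp (hw n)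
  simp only [lev_zero P.p_pos, Finset.sum_const_zero] at h1
  rw [Metric.tendsto_atTop] at h1
  obtain ⟨k₀, h2⟩ := h1 ε hε
  refine ⟨k₀, fun k hk => ?_⟩
  have h3 := h2 k hk
  rw [Real.dist_eq, sub_zero] at h3
  rw [norm_tr_Iic]
  exact (le_abs_self _).trans h3.le

lemma sub_tr_Ioc {a b : ℕ} (hab : a ≤ b) (w : G P) :
    w - tr (Ioc a b) w = tr (Iic a) w + (w - tr (Iic b) w) := by
  apply G.ext
  intro n
  simp only [G.fn_sub, G.fn_add, Pi.sub_apply, Pi.add_apply]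
  by_cases h1 : n ≤ a
  · rw [tr_fn_notMem w (show n ∉ Ioc a b by rw [mem_Ioc]; omega), tr_fn_mem w (mem_Iic.2 h1),
      tr_fn_mem w (show n ∈ Iic b by rw [mem_Iic]; omega)]
    abel
  · by_cases h2 : n ≤ b
    · rw [tr_fn_mem w (show n ∈ Ioc a b by rw [mem_Ioc]; omega),
        tr_fn_notMem w (show n ∉ Iic a by rw [mem_Iic]; omega), tr_fn_mem w (mem_Iic.2 h2)]
      abel
    · rw [tr_fn_notMem w (show n ∉ Ioc a b by rw [mem_Ioc]; omega),
        tr_fn_notMem w (show n ∉ Iic a by rw [mem_Iic]; omega),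
        tr_fn_notMem w (show n ∉ Iic b by rw [mem_Iic]; omega)]
      abel

lemma norm_sub_tr_Ioc {a b : ℕ} (hab : a ≤ b) (w : G P) :
    ‖w - tr (Ioc a b) w‖ ≤ ‖tr (Iic a) w‖ + ‖w - tr (Iic b) w‖ := by
  rw [sub_tr_Ioc hab]
  exact norm_add_le _ _

instance (n : ℕ) : Finite (L P.c n) := Finite.of_fintype _

/-- a bounded sequence has a subsequence converging on each level -/
lemma exists_subseq (U : ℕ → G P) {C : ℝ} (hU : ∀ n, ‖U n‖ ≤ C) :
    ∃ (u : G P) (φ : ℕ → ℕ), StrictMono φ ∧ ‖u‖ ≤ C ∧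
      ∀ n, Tendsto (fun k => (U (φ k)).fn n) atTop (𝓝 (u.fn n)) := by
  have hC : 0 ≤ C := (norm_nonneg _).trans (hU 0)
  set B : ℝ := C ^ (P.p)⁻¹ with hB
  have h1 : IsCompact (Set.pi univ fun n : ℕ => Set.pi univ fun _ : L P.c n => Icc (-B) B) :=
    isCompact_univ_pi fun _ => isCompact_univ_pi fun _ => isCompact_Icc
  have h2 : ∀ k, (U k).fn ∈ Set.pi univ fun n : ℕ => Set.pi univ fun _ : L P.c n => Icc (-B) B := by
    intro k n _ t _
    rw [mem_Icc, ← abs_le]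
    have h3 := (abs_rpow_le_norm (U k) n t).trans (hU k)
    have h4 := Real.rpow_le_rpow (Real.rpow_nonneg (abs_nonneg _) _) h3 (inv_nonneg.2 P.p_pos.le)
    rwa [← Real.rpow_mul (abs_nonneg _), mul_inv_cancel₀ P.p_pos.ne', Real.rpow_one] at h4
  obtain ⟨f, -, φ, hφ, hlim⟩ := h1.tendsto_subseq h2
  have h5 : ∀ n, Tendsto (fun k => (U (φ k)).fn n) atTop (𝓝 (f n)) := fun n =>
    (tendsto_pi_nhds.1 hlim) n
  obtain ⟨u, hu, hun⟩ := fatou (w := fun k => U (φ k)) (Eventually.of_forall fun k => hU (φ k)) h5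
  refine ⟨u, φ, hφ, hun, fun n => ?_⟩
  rw [hu]
  exact h5 n

lemma norm_sum_smul_le {E : Type*} [SeminormedAddCommGroup E] [SMul ℝ E]
    (hE : ∀ (a : ℝ) (x : E), ‖a • x‖ = |a| ^ P.p * ‖x‖) (m : ℕ) (a : ℕ → ℝ) (f : ℕ → E) {C : ℝ}
    (hC : ∀ k, ‖f k‖ ≤ C) :
    ‖∑ k ∈ Finset.range m, a k • f k‖ ≤ C * ∑ k ∈ Finset.range m, |a k| ^ P.p := by
  refine (norm_sum_le _ _).trans ?_
  rw [Finset.mul_sum]
  refine Finset.sum_le_sum fun k _ => ?_
  rw [hE, mul_comm C]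
  exact mul_le_mul_of_nonneg_left (hC k) (Real.rpow_nonneg (abs_nonneg _) _)

/-- The lower `p`-estimate for a subsequence of a bounded separated sequence. -/
theorem schur_aux (x : ℕ → X P) {C δ : ℝ} (hδ : 0 < δ) (hC : ∀ n, ‖x n‖ ≤ C)
    (hsep : ∀ m n, m ≠ n → δ ≤ ‖x m - x n‖) :
    ∃ θ : ℕ → ℕ, StrictMono θ ∧ ∃ c : ℝ, 0 < c ∧ ∀ (m : ℕ) (a : ℕ → ℝ),
      c * ∑ k ∈ Finset.range m, |a k| ^ P.p ≤ ‖∑ k ∈ Finset.range m, a k • x (θ k)‖ := by
  classical
  have hC0 : 0 ≤ C := (norm_nonneg _).trans (hC 0)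
  have hlift : ∀ n, ∃ v : G P, mk v = x n ∧ ‖v‖ ≤ C + 1 := by
    intro n
    obtain ⟨v, hv, hvn⟩ := exists_lift (x n) one_pos
    exact ⟨v, hv, by linarith [hC n]⟩
  choose U hU1 hU2 using hlift
  obtain ⟨u, φ, hφ, hun, hlim⟩ := exists_subseq U hU2
  set w : ℕ → G P := fun k => U (φ k) - u with hw
  have hwn : ∀ k, ‖w k‖ ≤ 2 * C + 2 := by
    intro k
    refine (norm_sub_le _ _).trans ?_
    linarith [hU2 (φ k)]
  have hw0 : ∀ n, Tendsto (fun k => (w k).fn n) atTop (𝓝 0) := by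
    intro n
    have := (hlim n).sub_const (u.fn n)
    rwa [sub_self] at this
  have hwsep : ∀ m n, m ≠ n → δ ≤ ‖mk (w m)‖ + ‖mk (w n)‖ := by
    intro m n hmn
    have h1 := hsep (φ m) (φ n) (fun h => hmn (hφ.injective h))
    have h2 : x (φ m) - x (φ n) = mk (w m) - mk (w n) := by
      rw [← hU1, ← hU1]
      change (N P).mkQ (U (φ m)) - (N P).mkQ (U (φ n)) = (N P).mkQ (w m) - (N P).mkQ (w n)
      rw [← map_sub, ← map_sub]
      congr 1
      exact (sub_sub_sub_cancel_right (U (φ m)) (U (φ n)) u).symm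
    rw [h2] at h1
    exact h1.trans (norm_sub_le _ _)
  obtain ⟨k₁, hk₁⟩ : ∃ k₁, ∀ k, k₁ ≤ k → δ / 2 ≤ ‖mk (w k)‖ := by
    by_cases h : ∃ k, ‖mk (w k)‖ < δ / 2
    · obtain ⟨k, hk⟩ := h
      refine ⟨k + 1, fun j hj => ?_⟩
      have := hwsep j k (by omega)
      linarith
    · push Not at h
      exact ⟨0, fun k _ => h k⟩
  set ε : ℝ := δ / 64 with hε
  have hε0 : 0 < ε := by positivity
  set t : ℝ := min (1 / 4) (δ / (32 * (3 * C + 3))) with ht
  have ht0 : 0 < t := by positivity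
  have ht1 : t ≤ 1 / 4 := min_le_left _ _
  have ht2 : 4 * t * (3 * C + 3) ≤ δ / 8 := by
    have h1 : t ≤ δ / (32 * (3 * C + 3)) := min_le_right _ _
    calc 4 * t * (3 * C + 3) ≤ 4 * (δ / (32 * (3 * C + 3))) * (3 * C + 3) := by gcongr
      _ = δ / 8 := by
        field_simp
        norm_num
  obtain ⟨l₁, hl₁⟩ : ∃ l₁, ∀ n, l₁ ≤ n → tau P n ≤ t := by
    obtain ⟨l₁, h⟩ := Metric.tendsto_atTop.1 P.tau_lim t ht0
    refine ⟨l₁, fun n hn => ?_⟩
    have := h n hn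
    rw [Real.dist_eq, sub_zero] at this
    exact (le_abs_self _).trans this.le
  obtain ⟨l₂, hl₂⟩ := exists_tail u hε0
  have hT : ∀ k, ∃ T : ℕ, ∀ l, T ≤ l → ‖w k - tr (Iic l) (w k)‖ ≤ ε := fun k =>
    exists_tail (w k) hε0
  choose T hT using hT
  have hNn : ∀ l, ∃ k, l ≤ k ∧ k₁ ≤ k ∧ ‖tr (Iic l) (w k)‖ ≤ ε := by
    intro l
    obtain ⟨k₀, h⟩ := exists_low hw0 l hε0
    exact ⟨max l (max k₁ k₀), by omega, by omega, h _ (by omega)⟩
  choose Nn hNn1 hNn2 hNn3 using hNn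
  set F : ℕ → ℕ := fun l => max (T (Nn l)) (Nn l + 1) with hF
  set l : ℕ → ℕ := fun k => F^[k] (max l₁ l₂) with hl
  have hl0 : l 0 = max l₁ l₂ := rfl
  have hls : ∀ k, l (k + 1) = F (l k) := fun k => Function.iterate_succ_apply' F k _
  have hlT : ∀ k, T (Nn (l k)) ≤ l (k + 1) := fun k => by
    rw [hls]
    exact le_max_left _ _
  have hlN : ∀ k, Nn (l k) + 1 ≤ l (k + 1) := fun k => by
    rw [hls]
    exact le_max_right _ _
  have hlmono : StrictMono l := strictMono_nat_of_lt_succ fun k => by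
    have h1 := hlN k
    have h2 := hNn1 (l k)
    omega
  set ν : ℕ → ℕ := fun k => Nn (l k) with hν
  have hνmono : StrictMono ν := strictMono_nat_of_lt_succ fun k => by
    have h1 := hlN k
    have h2 := hNn1 (l (k + 1))
    change Nn (l k) < Nn (l (k + 1))
    omega
  set w' : ℕ → G P := fun k => tr (Ioc (l k) (l (k + 1))) (w (ν k)) with hw'
  have hww' : ∀ k, ‖w (ν k) - w' k‖ ≤ 2 * ε := by
    intro k
    refine (norm_sub_tr_Ioc (hlmono (Nat.lt_succ_self k)).le (w (ν k))).trans ?_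
    have h1 := hNn3 (l k)
    have h2 := hT (ν k) (l (k + 1)) (hlT k)
    linarith
  have hw'n : ∀ k, ‖w' k‖ ≤ 2 * C + 2 := fun k => (norm_tr_le _ _).trans (hwn _)
  have hw'mk : ∀ k, δ / 2 - 2 * ε ≤ ‖mk (w' k)‖ := by
    intro k
    have h1 := hk₁ (ν k) (hNn2 (l k))
    have h2 : mk (w (ν k)) = mk (w (ν k) - w' k) + mk (w' k) := by
      change (N P).mkQ (w (ν k)) = (N P).mkQ (w (ν k) - w' k) + (N P).mkQ (w' k)
      rw [← map_add, sub_add_cancel]
    have h3 : ‖mk (w (ν k))‖ ≤ ‖mk (w (ν k) - w' k)‖ + ‖mk (w' k)‖ := by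
      conv_lhs => rw [h2]
      exact norm_add_le _ _
    have h4 := (norm_mk_le (w (ν k) - w' k)).trans (hww' k)
    linarith
  set u' : G P := tr (Iic (l 0)) u with hu'
  have huu' : ‖u - u'‖ ≤ ε := hl₂ _ (by rw [hl0]; exact le_max_right _ _)
  have hu'n : ‖u'‖ ≤ C + 1 := (norm_tr_le _ _).trans hun
  refine ⟨fun k => φ (ν k), hφ.comp hνmono, δ / 16, by positivity, fun m a => ?_⟩
  set S : ℝ := ∑ k ∈ Finset.range m, |a k| ^ P.p with hS
  have hS0 : 0 ≤ S := Finset.sum_nonneg fun _ _ => Real.rpow_nonneg (abs_nonneg _) _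
  set y : G P := ∑ k ∈ Finset.range m, a k • (u' + w' k) with hy
  have hyn : ‖y‖ ≤ (3 * C + 3) * S := by
    refine norm_sum_smul_le norm_smul' m a _ fun k => (norm_add_le _ _).trans ?_
    linarith [hw'n k]
  have hyfn : ∀ k < m, ∀ n, l k < n → n ≤ l (k + 1) → y.fn n = (a k • w' k).fn n := by
    intro k hk n h1 h2
    have h3 : l 0 ≤ l k := hlmono.monotone (Nat.zero_le _)
    have hu0 : u'.fn n = 0 := tr_fn_notMem u (by rw [mem_Iic]; omega)
    rw [hy, G.fn_sum, Finset.sum_apply]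
    rw [Finset.sum_eq_single_of_mem k (Finset.mem_range.2 hk)]
    · rw [G.fn_smul, G.fn_smul, Pi.smul_apply, Pi.smul_apply, G.fn_add, Pi.add_apply, hu0,
        zero_add]
    · intro j _ hjk
      have h4 : (w' j).fn n = 0 := by
        refine tr_fn_notMem _ ?_
        rw [mem_Ioc]
        rintro ⟨h5, h6⟩
        rcases lt_or_gt_of_ne hjk with h | h
        · have := hlmono.monotone (show j + 1 ≤ k from h)
          omega
        · have := hlmono.monotone (show k + 1 ≤ j from h)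
          omega
      rw [G.fn_smul, Pi.smul_apply, G.fn_add, Pi.add_apply, hu0, h4, add_zero, smul_zero]
  have hmain := main_estimate hlmono m (fun k => a k • w' k) y
    (fun k _ n hn => by
      rw [G.fn_smul, Pi.smul_apply]
      have : (w' k).fn n = 0 := tr_fn_notMem _ (by rwa [mem_Ioc])
      rw [this, smul_zero]) hyfn
    (t := t) (fun n hn => hl₁ n (by rw [hl0] at hn; omega))
  have h1 : (δ / 2 - 2 * ε) * S ≤ ∑ k ∈ Finset.range m, ‖mk (a k • w' k)‖ := by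
    rw [hS, Finset.mul_sum]
    refine Finset.sum_le_sum fun k _ => ?_
    have h2 : mk (a k • w' k) = a k • mk (w' k) := (N P).mkQ.map_smul _ _
    rw [h2, norm_smul_mk, mul_comm]
    exact mul_le_mul_of_nonneg_left (hw'mk k) (Real.rpow_nonneg (abs_nonneg _) _)
  have h2 : 4 * t * ‖y‖ ≤ δ / 8 * S := by
    calc 4 * t * ‖y‖ ≤ 4 * t * ((3 * C + 3) * S) := by gcongr
      _ = (4 * t * (3 * C + 3)) * S := by ring
      _ ≤ δ / 8 * S := mul_le_mul_of_nonneg_right ht2 hS0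
  have h3 : (1 + 4 * t) * ‖mk y‖ ≤ 2 * ‖mk y‖ := by
    refine mul_le_mul_of_nonneg_right ?_ (norm_nonneg _)
    linarith
  have h4 : ∑ k ∈ Finset.range m, a k • x (φ (ν k)) =
      mk y + mk (∑ k ∈ Finset.range m, a k • ((u - u') + (w (ν k) - w' k))) := by
    change _ = (N P).mkQ y + (N P).mkQ _
    rw [← map_add, hy, ← Finset.sum_add_distrib, map_sum]
    refine Finset.sum_congr rfl fun k _ => ?_
    rw [← hU1, ← smul_add, map_smul]
    congr 1
    change (N P).mkQ (U (φ (ν k))) = _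
    congr 1
    rw [hw]
    dsimp only
    abel
  have h5 : ‖mk (∑ k ∈ Finset.range m, a k • ((u - u') + (w (ν k) - w' k)))‖ ≤ 3 * ε * S := by
    refine (norm_mk_le _).trans (norm_sum_smul_le norm_smul' m a _ fun k =>
      (norm_add_le _ _).trans ?_)
    linarith [hww' k]
  rw [h4]
  have h6 : ‖mk y‖ ≤ ‖mk y + mk (∑ k ∈ Finset.range m, a k • ((u - u') + (w (ν k) - w' k)))‖ +
      ‖mk (∑ k ∈ Finset.range m, a k • ((u - u') + (w (ν k) - w' k)))‖ := by
    have := norm_sub_le (mk y + mk (∑ k ∈ Finset.range m, a k • ((u - u') + (w (ν k) - w' k))))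
      (mk (∑ k ∈ Finset.range m, a k • ((u - u') + (w (ν k) - w' k))))
    rwa [add_sub_cancel_right] at this
  have h7 : (δ / 2 - 2 * ε) * S = 30 / 64 * (δ * S) := by rw [hε]; ring
  have h8 : 3 * ε * S = 3 / 64 * (δ * S) := by rw [hε]; ring
  have h9 : 0 ≤ δ * S := by positivity
  have h10 : δ / 8 * S = 8 / 64 * (δ * S) := by ring
  have h11 : δ / 16 * S = 4 / 64 * (δ * S) := by ring
  rw [h11]
  rw [h8] at h5
  rw [h10] at h2
  rw [h7] at h1
  linarith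

end Pool.Agent.X171.Env
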